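import Pool.Agent.H61.PO.Triv

/-!
# PQV-1: points of an arc which is attached to a closed set

`arc_union_pt`: `σ = α '' [0,1]`, `y = α u`, `0 < u < 1` (`u ≠ 0, 1` since `y ≠ p, q`).  `ε = min u (1 - u) / 2 > 0`, `β t = α (u + ε * t)` for
`t ∈ [-1,1]` is continuous and injective on `[-1,1]` (`u + ε t ∈ (0,1)`), `β 0 = y`, `β '' Icc (-1) 1 = α '' Icc (u-ε) (u+ε) ⊆ σ`.
`(X ∪ σ) \ β '' Ioo (-1) 1 = X ∪ α '' Icc 0 (u-ε) ∪ α '' Icc (u+ε) 1`: closed (compact sets in a Hausdorff space).  [A point of `X` is not in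
`β '' Ioo`, as `X ∩ σ ⊆ {p,q} = {α 0, α 1}` and `α` is injective on `[0,1]`; a point `α t` with `t ≤ u - ε` or `t ≥ u + ε` is not in `β '' Ioo` by
injectivity.]
`tau_preconn`: `σ \ {p,q} = α '' Ioo 0 1`.  `tau_nonempty`: `α (1/2)`.
`sub_closure_tau`: `α 0` and `α 1` are in the closure of `α '' Ioo 0 1` (`ContinuousWithinAt.mem_closure_image`, `closure_Ioo`, or
`image_closure_of_isCompact`/`ContinuousOn.image_closure`: `α '' closure (Ioo 0 1) ⊆ closure (α '' Ioo 0 1)` since `α` is continuous on `Icc 0 1`).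
`tau_closure_one`: also `p ∈ closure (σ \ {p, q})` etc. follow from `sub_closure_tau`.
-/

namespace Pool.Agent.H94.PQ

open Set Filter Topology Pool.Agent.H61.PO

variable {M : Type*} [TopologicalSpace M] [T2Space M]

private theorem ArcU_eq {α : ℝ → M} (hi : InjOn α (Icc 0 1)) :
    (α '' Icc 0 1) \ {α 0, α 1} = α '' Ioo 0 1 := by
  have m0 : (0 : ℝ) ∈ Icc (0 : ℝ) 1 := ⟨le_rfl, zero_le_one⟩
  have m1 : (1 : ℝ) ∈ Icc (0 : ℝ) 1 := ⟨zero_le_one, le_rfl⟩
  ext z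
  constructor
  · rintro ⟨⟨t, ht, rfl⟩, hz⟩
    rw [mem_insert_iff, mem_singleton_iff, not_or] at hz
    refine ⟨t, ⟨lt_of_le_of_ne ht.1 fun h => hz.1 ?_, lt_of_le_of_ne ht.2 fun h => hz.2 ?_⟩, rfl⟩
    · rw [← h]
    · rw [h]
  · rintro ⟨t, ht, rfl⟩
    refine ⟨⟨t, Ioo_subset_Icc_self ht, rfl⟩, ?_⟩
    rw [mem_insert_iff, mem_singleton_iff, not_or]
    refine ⟨fun h => ?_, fun h => ?_⟩
    · exact ht.1.ne' (hi (Ioo_subset_Icc_self ht) m0 h)
    · exact ht.2.ne (hi (Ioo_subset_Icc_self ht) m1 h)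

theorem arc_union_pt {X σ : Set M} {p q y : M} (hX : IsClosed X) (hσ : IsArc σ p q)
    (h : X ∩ σ ⊆ {p, q}) (hy : y ∈ σ) (hyp : y ≠ p) (hyq : y ≠ q) : ArcPt (X ∪ σ) y := by
  obtain ⟨α, hc, hi, rfl, rfl, rfl⟩ := hσ
  obtain ⟨u, hu, rfl⟩ := hy
  have m0 : (0 : ℝ) ∈ Icc (0 : ℝ) 1 := ⟨le_rfl, zero_le_one⟩
  have m1 : (1 : ℝ) ∈ Icc (0 : ℝ) 1 := ⟨zero_le_one, le_rfl⟩
  have hu0 : 0 < u := lt_of_le_of_ne hu.1 fun h => hyp (by rw [← h])
  have hu1 : u < 1 := lt_of_le_of_ne hu.2 fun h => hyq (by rw [h])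
  obtain ⟨ε, hε, hεu, hεv⟩ : ∃ ε : ℝ, 0 < ε ∧ ε < u ∧ ε < 1 - u := by
    refine ⟨min u (1 - u) / 2, ?_, ?_, ?_⟩
    · have := lt_min hu0 (sub_pos.2 hu1)
      linarith
    · have := min_le_left u (1 - u)
      linarith
    · have := min_le_right u (1 - u)
      linarith
  have hm : ∀ t ∈ Icc (-1 : ℝ) 1, u + ε * t ∈ Icc (u - ε) (u + ε) := by
    intro t ht
    constructor
    · nlinarith [ht.1]
    · nlinarith [ht.2]
  have hm' : ∀ t ∈ Ioo (-1 : ℝ) 1, u + ε * t ∈ Ioo (u - ε) (u + ε) := by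
    intro t ht
    constructor
    · nlinarith [ht.1]
    · nlinarith [ht.2]
  have hs : Icc (u - ε) (u + ε) ⊆ Icc (0 : ℝ) 1 := by
    intro t ht
    exact ⟨by linarith [ht.1], by linarith [ht.2]⟩
  refine ⟨fun t => α (u + ε * t), ?_, ?_, ?_, ?_, ?_⟩
  · exact hc.comp (by fun_prop) fun t ht => hs (hm t ht)
  · intro s hs' t ht h
    have h1 := hi (hs (hm s hs')) (hs (hm t ht)) h
    have h2 : ε * s = ε * t := add_left_cancel h1
    exact mul_left_cancel₀ hε.ne' h2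
  · show α (u + ε * 0) = α u
    rw [mul_zero, add_zero]
  · rintro z ⟨t, ht, rfl⟩
    exact Or.inr ⟨_, hs (hm t ht), rfl⟩
  · have he : (X ∪ α '' Icc 0 1) \ (fun t => α (u + ε * t)) '' Ioo (-1) 1 =
        (X ∪ α '' Icc 0 (u - ε)) ∪ α '' Icc (u + ε) 1 := by
      ext z
      constructor
      · rintro ⟨hz, hn⟩
        rcases hz with hz | ⟨t, ht, rfl⟩
        · exact Or.inl (Or.inl hz)
        · rcases le_or_gt t (u - ε) with h1 | h1
          · exact Or.inl (Or.inr ⟨t, ⟨ht.1, h1⟩, rfl⟩)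
          · rcases le_or_gt (u + ε) t with h2 | h2
            · exact Or.inr ⟨t, ⟨h2, ht.2⟩, rfl⟩
            · exfalso
              apply hn
              refine ⟨(t - u) / ε, ⟨?_, ?_⟩, ?_⟩
              · rw [lt_div_iff₀ hε]
                linarith
              · rw [div_lt_iff₀ hε]
                linarith
              · show α (u + ε * ((t - u) / ε)) = α t
                congr 1
                field_simp
                ring
      · rintro ((hz | ⟨t, ht, rfl⟩) | ⟨t, ht, rfl⟩)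
        · refine ⟨Or.inl hz, ?_⟩
          rintro ⟨s, hs', rfl⟩
          have h1 := hm' s hs'
          have h2 : α (u + ε * s) ∈ ({α 0, α 1} : Set M) :=
            h ⟨hz, ⟨_, hs (Ioo_subset_Icc_self h1), rfl⟩⟩
          rcases h2 with h2 | h2
          · have h3 := hi (hs (Ioo_subset_Icc_self h1)) m0 h2
            linarith [h1.1]
          · have h3 := hi (hs (Ioo_subset_Icc_self h1)) m1 h2
            linarith [h1.2]
        · have ht' : t ∈ Icc (0 : ℝ) 1 := ⟨ht.1, by linarith [ht.2]⟩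
          refine ⟨Or.inr ⟨t, ht', rfl⟩, ?_⟩
          rintro ⟨s, hs', h2⟩
          have h1 := hm' s hs'
          have h3 := hi (hs (Ioo_subset_Icc_self h1)) ht' h2
          linarith [h1.1, ht.2]
        · have ht' : t ∈ Icc (0 : ℝ) 1 := ⟨by linarith [ht.1], ht.2⟩
          refine ⟨Or.inr ⟨t, ht', rfl⟩, ?_⟩
          rintro ⟨s, hs', h2⟩
          have h1 := hm' s hs'
          have h3 := hi (hs (Ioo_subset_Icc_self h1)) ht' h2
          linarith [h1.2, ht.1]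
    rw [he]
    have c1 : IsCompact (α '' Icc 0 (u - ε)) :=
      isCompact_Icc.image_of_continuousOn (hc.mono fun t ht => ⟨ht.1, by linarith [ht.2]⟩)
    have c2 : IsCompact (α '' Icc (u + ε) 1) :=
      isCompact_Icc.image_of_continuousOn (hc.mono fun t ht => ⟨by linarith [ht.1], ht.2⟩)
    exact (hX.union c1.isClosed).union c2.isClosed

theorem tau_preconn {σ : Set M} {p q : M} (hσ : IsArc σ p q) : IsPreconnected (σ \ {p, q}) := by
  obtain ⟨α, hc, hi, rfl, rfl, rfl⟩ := hσ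
  rw [ArcU_eq hi]
  exact isPreconnected_Ioo.image α (hc.mono Ioo_subset_Icc_self)

theorem tau_nonempty {σ : Set M} {p q : M} (hσ : IsArc σ p q) : (σ \ {p, q}).Nonempty := by
  obtain ⟨α, hc, hi, rfl, rfl, rfl⟩ := hσ
  rw [ArcU_eq hi]
  exact ⟨α (1 / 2), 1 / 2, ⟨by norm_num, by norm_num⟩, rfl⟩

theorem sub_closure_tau {σ : Set M} {p q : M} (hσ : IsArc σ p q) : σ ⊆ closure (σ \ {p, q}) := by
  obtain ⟨α, hc, hi, rfl, rfl, rfl⟩ := hσ
  rw [ArcU_eq hi]
  have h1 : closure (Ioo (0 : ℝ) 1) = Icc 0 1 := closure_Ioo zero_ne_one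
  have h2 : ContinuousOn α (closure (Ioo (0 : ℝ) 1)) := by rw [h1]; exact hc
  have h3 := h2.image_closure
  rw [h1] at h3
  exact h3

end Pool.Agent.H94.PQ
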