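import Pool.Agent.H94.PQ.Gb

/-!
# PQV-7: the closure of a component meets the graph in the union of its adjacent closed edges

`⊇`: `adj_sub`.  `⊆`: `y ∈ closure W ∩ Γ.σ i`.  If `y ∈ Γ.op i` then `i` is adjacent to `W`.  Otherwise (`mem_σ`) `y = Γ.pt k`.  Claim: some edge `i` with `k = s i ∨ k = t i` is adjacent to `W`.
Suppose not.  `V = (range pt \ {pt k} ∪ ⋃ (i not at k), Γ.σ i)ᶜ` is open (finite sets, closed edges) and contains `pt k` (`vert`: `pt k ∈ σ i → k = s i ∨ k = t i`; `pt_inj`).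
`Surf`: `e : ℂ → M` open embedding, `e 0 = pt k`, `range e ⊆ V`.  `(range e \ {pt k}) ∩ closure W ⊆ W`: a point of `closure W` is in `W` or in `Γ.set` (`comp_clos_sub`), so in some `σ i`, `i` at `k`
(because of `V`); by `mem_σ` it is in `op i` (then `i` would be adjacent to `W`), or a vertex: it is `pt k` (because of `V`).  So `e '' {0}ᶜ = range e \ {pt k}`, preconnected
(`isPreconnected_compl_singleton_of_one_lt_rank`/`isConnected_compl_singleton_of_one_lt_rank`, `Complex.rank_real_complex`; image of a preconnected set), is covered by the disjoint open sets `W` (`comp_open`) and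
`(closure W)ᶜ`.  It meets `W`, as `range e` is an open neighbourhood of `pt k ∈ closure W` (`pt k ∉ W`, `comp_disj_set`).  So `range e \ {pt k} ⊆ W`.  But there is an edge `i` at `k` (`Γ.deg`), and `pt k ∈ closure (op i)` (`σ_sub_closure_op`,
`(Γ.arc i)` and `IsArc.mem`), so `range e` meets `Γ.op i ⊆ Γ.set`, which is disjoint from `W`, and `pt k ∉ Γ.op i`: contradiction.
-/

namespace Pool.Agent.H94.PQ

open Set Filter Topology Metric Pool.Agent.H61.PO

variable {M : Type*} [MetricSpace M]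

private theorem Clos_mem_σ (Γ : Gr M) {k : Γ.κ} {i : Γ.ι} (h : k = Γ.s i ∨ k = Γ.t i) :
    Γ.pt k ∈ Γ.σ i := by
  obtain ⟨α, -, -, h3, h4, h5⟩ := Γ.arc i
  rw [h3]
  rcases h with h | h
  · exact ⟨0, by norm_num, by rw [h4, h]⟩
  · exact ⟨1, by norm_num, by rw [h5, h]⟩

/-- a vertex in the closure of a component is on an adjacent edge -/
theorem vert_adj (hM : Surf M) (Γ : Gr M) {W : Set M} (hW : W ∈ Γ.comps) {k : Γ.κ}
    (hk : Γ.pt k ∈ closure W) : ∃ i, (k = Γ.s i ∨ k = Γ.t i) ∧ Γ.Adj W i := by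
  by_contra hcon
  have hcon' : ∀ i, (k = Γ.s i ∨ k = Γ.t i) → ¬ Γ.Adj W i := fun i h1 h2 => hcon ⟨i, h1, h2⟩
  have hfκ := Γ.fκ
  have hfι := Γ.fι
  -- the forbidden closed set
  obtain ⟨F, hFd⟩ : ∃ F : Set M, F = (⋃ k' ∈ ({k}ᶜ : Set Γ.κ), {Γ.pt k'}) ∪
      ⋃ i ∈ {i | ¬ (k = Γ.s i ∨ k = Γ.t i)}, Γ.σ i := ⟨_, rfl⟩
  have hF : IsClosed F := by
    rw [hFd]
    exact ((Set.toFinite _).isClosed_biUnion fun _ _ => isClosed_singleton).union
      ((Set.toFinite _).isClosed_biUnion fun i _ => closedσ Γ i)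
  have hF1 : ∀ k', k' ≠ k → Γ.pt k' ∈ F := by
    intro k' h
    rw [hFd]
    exact Or.inl (mem_biUnion (show k' ∈ ({k}ᶜ : Set Γ.κ) from h) rfl)
  have hF2 : ∀ i, ¬ (k = Γ.s i ∨ k = Γ.t i) → Γ.σ i ⊆ F := by
    intro i h x hx
    rw [hFd]
    exact Or.inr (mem_biUnion (show i ∈ {i | ¬ (k = Γ.s i ∨ k = Γ.t i)} from h) hx)
  have hkF : Γ.pt k ∉ F := by
    rw [hFd]
    rintro (h | h)
    · simp only [mem_iUnion] at h
      obtain ⟨k', h1, h2⟩ := h
      exact h1 (Γ.pt_inj (mem_singleton_iff.1 h2)).symm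
    · simp only [mem_iUnion] at h
      obtain ⟨i, h1, h2⟩ := h
      exact h1 (Γ.vert i k h2)
  obtain ⟨e, he, he0, hr⟩ := hM (Γ.pt k) Fᶜ (hF.isOpen_compl.mem_nhds hkF)
  have hpre : IsPreconnected (e '' {0}ᶜ) := by
    have h1 : IsConnected ({0}ᶜ : Set ℂ) :=
      isConnected_compl_singleton_of_one_lt_rank (by rw [Complex.rank_real_complex]; norm_num) 0
    exact h1.isPreconnected.image e he.continuous.continuousOn
  have hkset : Γ.pt k ∈ Γ.set := by
    obtain ⟨i, hi⟩ := Γ.deg k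
    exact mem_iUnion.2 ⟨i, Clos_mem_σ Γ hi⟩
  have hkW : Γ.pt k ∉ W := fun h => disjoint_left.1 (comp_disj_set Γ hW) h hkset
  have hcov : e '' {0}ᶜ ⊆ W ∪ (closure W)ᶜ := by
    rintro _ ⟨z, hz, rfl⟩
    by_cases hy : e z ∈ closure W
    · rcases comp_clos_sub hM Γ hW hy with h | h
      · exact Or.inl h
      · exfalso
        obtain ⟨i, hi⟩ := mem_iUnion.1 h
        have hzF : e z ∉ F := hr ⟨z, rfl⟩
        by_cases hik : k = Γ.s i ∨ k = Γ.t i
        · have hne : ∀ k', e z ≠ Γ.pt k' := by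
            intro k' h1
            by_cases h2 : k' = k
            · rw [h2, ← he0] at h1
              exact hz (he.injective h1)
            · exact hzF (h1 ▸ hF1 k' h2)
          rcases mem_σ Γ i hi with h1 | h1 | h1
          · exact hcon' i hik ⟨e z, hy, h1⟩
          · exact hne _ h1
          · exact hne _ h1
        · exact hzF (hF2 i hik hi)
    · exact Or.inr hy
  have hmeet : (e '' {0}ᶜ ∩ W).Nonempty := by
    obtain ⟨w, hw1, hw2⟩ := mem_closure_iff.1 hk (range e) he.isOpen_range ⟨0, he0⟩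
    obtain ⟨z, rfl⟩ := hw1
    refine ⟨e z, ⟨z, ?_, rfl⟩, hw2⟩
    intro hz
    rw [mem_singleton_iff.1 hz, he0] at hw2
    exact hkW hw2
  have hsub : e '' {0}ᶜ ⊆ W := by
    refine IsPreconnected.subset_left_of_subset_union (comp_open hM Γ hW)
      isClosed_closure.isOpen_compl ?_ hcov hmeet hpre
    exact disjoint_left.2 fun x hx hx' => hx' (subset_closure hx)
  obtain ⟨i, hi⟩ := Γ.deg k
  have h1 : Γ.pt k ∈ closure (Γ.op i) := σ_sub_closure_op Γ i (Clos_mem_σ Γ hi)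
  obtain ⟨y, hy1, hy2⟩ := mem_closure_iff.1 h1 (range e) he.isOpen_range ⟨0, he0⟩
  obtain ⟨z, rfl⟩ := hy1
  have hyW : e z ∈ W := by
    refine hsub ⟨z, ?_, rfl⟩
    intro hz
    rw [mem_singleton_iff.1 hz, he0] at hy2
    exact op_pt Γ i k hy2
  exact disjoint_left.1 (comp_disj_set Γ hW) hyW (mem_iUnion.2 ⟨i, hy2.1⟩)

theorem comp_clos (hM : Surf M) (Γ : Gr M) {W : Set M} (hW : W ∈ Γ.comps) :
    closure W ∩ Γ.set = ⋃ i ∈ Γ.adj W, Γ.σ i := by
  ext y
  constructor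
  · rintro ⟨h1, h2⟩
    obtain ⟨i, hi⟩ := mem_iUnion.1 h2
    have key : ∀ k, y = Γ.pt k → y ∈ ⋃ i ∈ Γ.adj W, Γ.σ i := by
      rintro k rfl
      obtain ⟨j, hj1, hj2⟩ := vert_adj hM Γ hW h1
      exact mem_biUnion (show j ∈ Γ.adj W from hj2) (Clos_mem_σ Γ hj1)
    rcases mem_σ Γ i hi with h | h | h
    · exact mem_biUnion (show i ∈ Γ.adj W from ⟨y, h1, h⟩) hi
    · exact key _ h
    · exact key _ h
  · intro h
    simp only [mem_iUnion] at h
    obtain ⟨i, hi, hy⟩ := h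
    exact ⟨adj_sub hM Γ hW hi hy, mem_iUnion.2 ⟨i, hy⟩⟩

end Pool.Agent.H94.PQ
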