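import Mathlib

/-!
# PQV-8a: three different two-element sets

`E1 = {a,b}`.  If `a ∈ E2` and `b ∈ E2` then `E1 = E2`, as `E2` has two elements.  If none of the first three alternatives holds, every element of each set is in one of the other two sets.  `a` is in exactly one of `E2`, `E3`
or in both, `b` too, and neither `E2` nor `E3` contains both.  If `a ∈ E3`, `b ∈ E2` (the other case is symmetric: exchange the names `a`, `b`): `E2 = {b, c}` with `c ≠ b`, `c ≠ a` (otherwise `E1 = E2`), so `c ∉ E1`, `c ∈ E3`, and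
`a ∈ E3`: `E3 = {a, c}`.
-/

namespace Pool.Agent.H94.PQ

theorem comb {κ : Type*} {E1 E2 E3 : Set κ} (h1 : ∃ a b, a ≠ b ∧ E1 = {a, b})
    (h2 : ∃ a b, a ≠ b ∧ E2 = {a, b}) (h3 : ∃ a b, a ≠ b ∧ E3 = {a, b}) (h12 : E1 ≠ E2)
    (h13 : E1 ≠ E3) (h23 : E2 ≠ E3) :
    (∃ x ∈ E1, x ∉ E2 ∧ x ∉ E3) ∨ (∃ x ∈ E2, x ∉ E1 ∧ x ∉ E3) ∨ (∃ x ∈ E3, x ∉ E1 ∧ x ∉ E2) ∨
      ∃ a b c, a ≠ b ∧ a ≠ c ∧ b ≠ c ∧ E1 = {a, b} ∧ E2 = {b, c} ∧ E3 = {a, c} := by
  obtain ⟨a, b, hab, rfl⟩ := h1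
  obtain ⟨c, d, hcd, rfl⟩ := h2
  obtain ⟨e, f, hef, rfl⟩ := h3
  by_contra hcon
  simp only [not_or, not_exists, not_and] at hcon
  obtain ⟨k1, k2, k3, k4⟩ := hcon
  have j1 := k4 a b c
  have j2 := k4 a b d
  have j3 := k4 b a c
  have j4 := k4 b a d
  have a1 := k1 a
  have a2 := k1 b
  have a3 := k2 c
  have a4 := k2 d
  have a5 := k3 e
  have a6 := k3 f
  clear k1 k2 k3 k4
  simp only [Set.mem_insert_iff, Set.mem_singleton_iff, ne_eq, Set.pair_eq_pair_iff] at *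
  grind

end Pool.Agent.H94.PQ
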