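import Pool.Agent.H94.PQ.Tri

/-!
# PQV-9: finiteness of the set of components, and counting

`two_comps`: among three components adjacent to `i` two are equal (`adj_three`); so the set is finite (an infinite set has three different elements: `Set.Infinite.exists_subset_ncard_eq` or
`Set.Infinite.natEmbedding`) and has at most two elements (`Set.two_lt_ncard_iff`, needs finiteness).
`comps_finite`: every component is adjacent to some edge (`comp_three`), so `Γ.comps = ⋃ i, {W | W ∈ Γ.comps ∧ Γ.Adj W i}` is a finite union of finite sets (`Γ.fι`).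
`count`: double counting of the pairs `(W, i)`, `W ∈ Γ.comps`, `Γ.Adj W i` (`Finset.sum_card_bipartiteAbove_eq_sum_card_bipartiteBelow`, or `Finset.sum_comm` of indicator sums):
`∑ W ∈ comps, (Γ.adj W).ncard = ∑ i, {W | W ∈ Γ.comps ∧ Γ.Adj W i}.ncard`.
`comps_count`: the left side is at least `3 * ncard`, the right side at most `2 * Nat.card ι`.
`comps_eq`: in the case of equality every term on the left is `3` and every term on the right is `2` (`Finset.sum_eq_sum_iff_of_le`).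
-/

namespace Pool.Agent.H94.PQ

open Set Filter Topology Metric Pool.Agent.H61.PO

variable {M : Type*} [MetricSpace M]

private theorem cnt_two {α : Type*} (S : Set α)
    (h : ∀ a ∈ S, ∀ b ∈ S, ∀ c ∈ S, a = b ∨ a = c ∨ b = c) : S.Finite ∧ S.ncard ≤ 2 := by
  rcases S.subsingleton_or_nontrivial with hs | ⟨a, ha, b, hb, hab⟩
  · have h1 := hs.finite
    refine ⟨h1, ?_⟩
    have h2 : S.ncard ≤ 1 := by
      rw [Set.ncard_le_one h1]
      exact fun a ha b hb => hs ha hb
    omega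
  · have h1 : S ⊆ {a, b} := by
      intro c hc
      rcases h a ha b hb c hc with h2 | h2 | h2
      · exact absurd h2 hab
      · exact Or.inl h2.symm
      · exact Or.inr h2.symm
    have h2 : ({a, b} : Set α).Finite := Set.toFinite _
    refine ⟨h2.subset h1, ?_⟩
    have h3 := Set.ncard_le_ncard h1 h2
    rw [Set.ncard_pair hab] at h3
    exact h3

theorem two_comps (hM : Surf M) (Γ : Gr M) (i : Γ.ι) :
    {W | W ∈ Γ.comps ∧ Γ.Adj W i}.Finite ∧ {W | W ∈ Γ.comps ∧ Γ.Adj W i}.ncard ≤ 2 :=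
  cnt_two _ fun _ ha _ hb _ hc => adj_three hM Γ ha.1 hb.1 hc.1 ha.2 hb.2 hc.2

theorem comps_finite [PreconnectedSpace M] (hM : Surf M) (Γ : Gr M) : Γ.comps.Finite := by
  have hf : Finite Γ.ι := @Finite.of_fintype _ Γ.fι
  have h1 : Γ.comps ⊆ ⋃ i, {W | W ∈ Γ.comps ∧ Γ.Adj W i} := by
    intro W hW
    have h2 := comp_three hM Γ hW
    have h3 : (Γ.adj W).Nonempty := by
      apply Set.nonempty_of_ncard_ne_zero
      omega
    obtain ⟨i, hi⟩ := h3
    exact mem_iUnion.2 ⟨i, hW, hi⟩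
  exact (Set.finite_iUnion fun i => (two_comps hM Γ i).1).subset h1

theorem count [PreconnectedSpace M] (hM : Surf M) (Γ : Gr M) [Fintype Γ.ι] :
    ∑ W ∈ (comps_finite hM Γ).toFinset, (Γ.adj W).ncard =
      ∑ i : Γ.ι, {W | W ∈ Γ.comps ∧ Γ.Adj W i}.ncard := by
  classical
  have e1 : ∀ W, (Γ.adj W).ncard = ∑ i : Γ.ι, if Γ.Adj W i then 1 else 0 := by
    intro W
    have h1 : Γ.adj W = ((Finset.univ.filter fun i => Γ.Adj W i : Finset Γ.ι) : Set Γ.ι) := by
      ext i
      simp only [Finset.coe_filter, Finset.mem_univ, true_and, mem_ofPred_eq]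
      exact Iff.rfl
    rw [h1, Set.ncard_coe_finset, Finset.card_filter]
  have e2 : ∀ i, {W | W ∈ Γ.comps ∧ Γ.Adj W i}.ncard =
      ∑ W ∈ (comps_finite hM Γ).toFinset, if Γ.Adj W i then 1 else 0 := by
    intro i
    have h1 : {W | W ∈ Γ.comps ∧ Γ.Adj W i} =
        (((comps_finite hM Γ).toFinset.filter fun W => Γ.Adj W i : Finset (Set M)) :
          Set (Set M)) := by
      ext W
      simp only [Finset.coe_filter, Set.Finite.mem_toFinset, mem_ofPred_eq]
    rw [h1, Set.ncard_coe_finset, Finset.card_filter]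
  rw [Finset.sum_congr rfl fun W _ => e1 W, Finset.sum_congr rfl fun i _ => e2 i,
    Finset.sum_comm]

theorem comps_count [PreconnectedSpace M] (hM : Surf M) (Γ : Gr M) :
    3 * Γ.comps.ncard ≤ 2 * Nat.card Γ.ι := by
  let hfi : Fintype Γ.ι := Γ.fι
  have h1 : ∑ W ∈ (comps_finite hM Γ).toFinset, 3 ≤
      ∑ W ∈ (comps_finite hM Γ).toFinset, (Γ.adj W).ncard :=
    Finset.sum_le_sum fun W hW => comp_three hM Γ ((comps_finite hM Γ).mem_toFinset.1 hW)
  have h2 : ∑ i : Γ.ι, {W | W ∈ Γ.comps ∧ Γ.Adj W i}.ncard ≤ ∑ _i : Γ.ι, 2 :=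
    Finset.sum_le_sum fun i _ => (two_comps hM Γ i).2
  rw [count hM Γ] at h1
  rw [Finset.sum_const, smul_eq_mul, ← Set.ncard_eq_toFinset_card _ (comps_finite hM Γ)] at h1
  rw [Finset.sum_const, smul_eq_mul, Finset.card_univ, ← Nat.card_eq_fintype_card] at h2
  omega

theorem comps_eq [PreconnectedSpace M] (hM : Surf M) (Γ : Gr M)
    (h : 3 * Γ.comps.ncard = 2 * Nat.card Γ.ι) :
    (∀ W ∈ Γ.comps, (Γ.adj W).ncard = 3) ∧ ∀ i, {W | W ∈ Γ.comps ∧ Γ.Adj W i}.ncard = 2 := by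
  let hfi : Fintype Γ.ι := Γ.fι
  have a1 : ∀ W ∈ (comps_finite hM Γ).toFinset, 3 ≤ (Γ.adj W).ncard :=
    fun W hW => comp_three hM Γ ((comps_finite hM Γ).mem_toFinset.1 hW)
  have a2 : ∀ i ∈ (Finset.univ : Finset Γ.ι), {W | W ∈ Γ.comps ∧ Γ.Adj W i}.ncard ≤ 2 :=
    fun i _ => (two_comps hM Γ i).2
  have h1 := Finset.sum_le_sum a1
  have h2 := Finset.sum_le_sum a2
  have h3 := count hM Γ
  have s1 : ∑ W ∈ (comps_finite hM Γ).toFinset, 3 = Γ.comps.ncard * 3 := by
    rw [Finset.sum_const, smul_eq_mul, ← Set.ncard_eq_toFinset_card _ (comps_finite hM Γ)]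
  have s2 : ∑ _i : Γ.ι, 2 = Nat.card Γ.ι * 2 := by
    rw [Finset.sum_const, smul_eq_mul, Finset.card_univ, ← Nat.card_eq_fintype_card]
  have e1 : ∑ W ∈ (comps_finite hM Γ).toFinset, 3 =
      ∑ W ∈ (comps_finite hM Γ).toFinset, (Γ.adj W).ncard := by omega
  have e2 : ∑ i : Γ.ι, {W | W ∈ Γ.comps ∧ Γ.Adj W i}.ncard = ∑ _i : Γ.ι, 2 := by omega
  refine ⟨fun W hW => ?_, fun i => ?_⟩
  · exact ((Finset.sum_eq_sum_iff_of_le a1).1 e1 W ((comps_finite hM Γ).mem_toFinset.2 hW)).symm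
  · exact (Finset.sum_eq_sum_iff_of_le a2).1 e2 i (Finset.mem_univ i)

end Pool.Agent.H94.PQ
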