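import Pool.Agent.H94.PQ.EndP
import Pool.Agent.H61.PO.Discs

/-!
# PQV-3: the end of an arc, on a surface

`free_end`: `V = (X \ α '' Ico 0 1)ᶜ` is open, `α 0 ∈ V`, `α 1 ∉ V` (`α 1 ∈ X`, injective).  `e : ℂ → M` open embedding with `e 0 = α 0`, `range e ⊆ V` (`Surf`), so
`range e ∩ X ⊆ α '' Ico 0 1` and `α 1 ∉ range e`.  First exit time `t2` as in `local_side` (private theorem of `Pool/Agent/H61/PO/Local.lean`; copy it): `0 < t2 < 1`,
`α t ∈ e '' ball 0 1` for `0 ≤ t < t2`, `α t2 ∈ e '' sphere 0 1`.  `σ = e ⁻¹' (α '' Icc 0 t2)` is an arc from `0` to `q = e⁻¹ (α t2)` (as in `local_plane` in the same file, which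
is the model of the whole proof), `σ ⊆ closedBall 0 1`, `sphere 0 1 ∩ σ = {q}`, `Y' = sphere 0 1 ∪ (closedBall 0 1 ∩ e ⁻¹' (X \ α '' Ico 0 t2))` compact
(`X \ α '' Ico 0 t2 = (X \ α '' Ico 0 1) ∪ α '' Icc t2 1` is closed; `e ⁻¹'` of it is closed), `Y' ∩ σ = {q}`.
`closedBall 0 1 ∩ e ⁻¹' X ⊆ Y' ∪ σ`.  `end_plane`: `δ`; `U = e '' ball 0 δ`.  `y = e p1`, `y' = e p2 ∈ U \ X`: `p1, p2 ∉ σ` (`e '' σ ⊆ X`), so `p2` is in the component `C` of
`p1` in `(Y' ∪ σ)ᶜ`; `C ⊆ ball 0 1` (`comp_ball`), `e '' C` is preconnected, misses `X`, contains `y` and `y'`: `IsPreconnected.subset_connectedComponentIn`.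
-/

namespace Pool.Agent.H94.PQ

open Set Filter Topology Metric Pool.Agent.H61.PO

variable {M : Type*} [MetricSpace M]

/-- first exit time from a disc (copy of the private theorem of `Local.lean`) -/
private theorem EndM_side {α : ℝ → M} (hc : ContinuousOn α (Icc 0 1)) {e : ℂ → M}
    (he : IsOpenEmbedding e) (h0 : α 0 = e 0) (h1 : α 1 ∉ range e) :
    ∃ t2 : ℝ, 0 < t2 ∧ t2 < 1 ∧ (∀ t : ℝ, 0 ≤ t → t < t2 → α t ∈ e '' ball 0 1) ∧
      α t2 ∈ e '' sphere 0 1 := by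
  have hopen : IsOpen (e '' ball 0 1) := he.isOpenMap _ isOpen_ball
  have hclosed : IsClosed (Icc (0 : ℝ) 1 ∩ α ⁻¹' (e '' ball 0 1)ᶜ) :=
    hc.preimage_isClosed_of_isClosed isClosed_Icc hopen.isClosed_compl
  have hcomp : IsCompact (Icc (0 : ℝ) 1 ∩ α ⁻¹' (e '' ball 0 1)ᶜ) :=
    isCompact_Icc.of_isClosed_subset hclosed inter_subset_left
  have hne : (Icc (0 : ℝ) 1 ∩ α ⁻¹' (e '' ball 0 1)ᶜ).Nonempty := by
    refine ⟨1, ⟨zero_le_one, le_rfl⟩, ?_⟩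
    rintro ⟨z, -, hz⟩
    exact h1 ⟨z, hz⟩
  obtain ⟨t2, ⟨ht2, hn⟩, hmin⟩ := hcomp.exists_isLeast hne
  have hbelow : ∀ t : ℝ, 0 ≤ t → t < t2 → α t ∈ e '' ball 0 1 := by
    intro t h0t htt
    by_contra hcon
    exact absurd (hmin ⟨⟨h0t, htt.le.trans ht2.2⟩, hcon⟩) (not_le.2 htt)
  have hpos : 0 < t2 := by
    rcases ht2.1.eq_or_lt with h | h
    · exfalso
      apply hn
      rw [← h, h0]
      exact ⟨0, mem_ball_self one_pos, rfl⟩
    · exact h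
  have hclB : IsClosed (e '' closedBall 0 1) :=
    ((isCompact_closedBall (0 : ℂ) 1).image he.continuous).isClosed
  have hmem : α t2 ∈ e '' closedBall 0 1 := by
    have hcw : ContinuousWithinAt α (Ico 0 t2) t2 :=
      (hc t2 ht2).mono (fun t ht => ⟨ht.1, ht.2.le.trans ht2.2⟩)
    have hcl : t2 ∈ closure (Ico 0 t2) := by
      rw [closure_Ico hpos.ne]
      exact ⟨hpos.le, le_rfl⟩
    have h := hcw.mem_closure_image hcl
    refine hclB.closure_subset_iff.2 ?_ h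
    rintro _ ⟨t, ht, rfl⟩
    exact image_mono ball_subset_closedBall (hbelow t ht.1 ht.2)
  have hlt : t2 < 1 := by
    rcases ht2.2.eq_or_lt with h | h
    · exfalso
      apply h1
      rw [← h]
      exact image_subset_range _ _ hmem
    · exact h
  refine ⟨t2, hpos, hlt, hbelow, ?_⟩
  obtain ⟨z, hz, hze⟩ := hmem
  refine ⟨z, ?_, hze⟩
  rw [mem_closedBall] at hz
  rw [mem_sphere]
  refine le_antisymm hz (not_lt.1 fun hlt' => hn ⟨z, ?_, hze⟩)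
  rw [mem_ball]
  exact hlt'

/-- the situation in the plane -/
private theorem EndM_plane (hM : Surf M) {X : Set M} {α : ℝ → M}
    (hc : ContinuousOn α (Icc 0 1)) (hi : InjOn α (Icc 0 1)) (hsub : α '' Icc 0 1 ⊆ X)
    (hcl : IsClosed (X \ α '' Ico 0 1)) :
    ∃ (e : ℂ → M) (q : ℂ) (σ Y' : Set ℂ), IsOpenEmbedding e ∧ e 0 = α 0 ∧ IsArc σ 0 q ∧
      σ ⊆ closedBall 0 1 ∧ sphere 0 1 ∩ σ = {q} ∧ IsCompact Y' ∧
      sphere 0 1 ⊆ Y' ∧ Y' ⊆ closedBall 0 1 ∧ Y' ∩ σ = {q} ∧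
      (∀ z ∈ σ, e z ∈ X) ∧ ∀ z ∈ closedBall (0 : ℂ) 1, e z ∈ X → z ∈ Y' ∨ z ∈ σ := by
  have hxV : α 0 ∈ (X \ α '' Ico 0 1)ᶜ := by
    rintro ⟨-, hn⟩
    exact hn ⟨0, ⟨le_rfl, one_pos⟩, rfl⟩
  obtain ⟨e, he, he0, hrange⟩ := hM (α 0) _ (hcl.isOpen_compl.mem_nhds hxV)
  have hend : α 1 ∉ range e := by
    intro hr
    refine hrange hr ⟨hsub ⟨1, ⟨zero_le_one, le_rfl⟩, rfl⟩, ?_⟩
    rintro ⟨u, hu, hut⟩
    have := hi ⟨hu.1, hu.2.le⟩ ⟨zero_le_one, le_rfl⟩ hut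
    rw [this] at hu
    exact lt_irrefl _ hu.2
  obtain ⟨t, ht0, ht1, htb, hts⟩ := EndM_side hc he he0.symm hend
  have hI : Icc 0 t ⊆ Icc (0 : ℝ) 1 := Icc_subset_Icc le_rfl ht1.le
  have hcb : ∀ u ∈ Icc 0 t, α u ∈ e '' closedBall 0 1 := by
    intro u hu
    rcases hu.2.eq_or_lt with h' | h'
    · rw [h']
      exact image_mono sphere_subset_closedBall hts
    · exact image_mono ball_subset_closedBall (htb u hu.1 h')
  -- the lift
  obtain ⟨β, hβ⟩ : ∃ β : ℝ → ℂ, ∀ u ∈ Icc 0 t, e (β u) = α u := by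
    refine ⟨fun u => Function.invFun e (α u), fun u hu => Function.invFun_eq ?_⟩
    obtain ⟨z, -, hz⟩ := hcb u hu
    exact ⟨z, hz⟩
  have hβc : ContinuousOn β (Icc 0 t) := by
    rw [he.isInducing.continuousOn_iff]
    exact (hc.mono hI).congr fun u hu => hβ u hu
  have hβi : InjOn β (Icc 0 t) := by
    intro u hu v hv huv
    apply hi (hI hu) (hI hv)
    rw [← hβ u hu, ← hβ v hv, huv]
  have hβb : ∀ u ∈ Ico 0 t, β u ∈ ball (0 : ℂ) 1 := by
    intro u hu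
    obtain ⟨z, hz, hze⟩ := htb u hu.1 hu.2
    rw [← hβ u ⟨hu.1, hu.2.le⟩] at hze
    exact he.injective hze ▸ hz
  have hmt : t ∈ Icc 0 t := ⟨ht0.le, le_rfl⟩
  have hm0 : (0 : ℝ) ∈ Icc 0 t := ⟨le_rfl, ht0.le⟩
  have hβt : β t ∈ sphere (0 : ℂ) 1 := by
    obtain ⟨z, hz, hze⟩ := hts
    rw [← hβ t hmt] at hze
    exact he.injective hze ▸ hz
  have hβ0 : β 0 = 0 := by
    apply he.injective
    rw [hβ 0 hm0, he0]
  have htri : ∀ u ∈ Icc 0 t, u = t ∨ u ∈ Ico 0 t := by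
    intro u hu
    rcases hu.2.eq_or_lt with h' | h'
    · exact Or.inl h'
    · exact Or.inr ⟨hu.1, h'⟩
  have hσcb : β '' Icc 0 t ⊆ closedBall 0 1 := by
    rintro _ ⟨u, hu, rfl⟩
    rcases htri u hu with rfl | h
    · exact sphere_subset_closedBall hβt
    · exact ball_subset_closedBall (hβb u h)
  have hsph : ∀ z, z ∈ sphere (0 : ℂ) 1 → z ∈ β '' Icc 0 t → z = β t := by
    rintro _ hz ⟨u, hu, rfl⟩
    rcases htri u hu with rfl | h
    · rfl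
    · exfalso
      have h1 := hβb u h
      rw [mem_ball] at h1
      rw [mem_sphere] at hz
      exact absurd hz h1.ne
  have hclX : IsClosed (X \ α '' Ico 0 t) := by
    have heq : X \ α '' Ico 0 t = (X \ α '' Ico 0 1) ∪ α '' Icc t 1 := by
      ext y
      constructor
      · rintro ⟨hyX, hyn⟩
        by_cases hy : y ∈ α '' Ico 0 1
        · obtain ⟨u, hu, rfl⟩ := hy
          right
          rcases lt_or_ge u t with h' | h'
          · exact absurd ⟨u, ⟨hu.1, h'⟩, rfl⟩ hyn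
          · exact ⟨u, ⟨h', hu.2.le⟩, rfl⟩
        · exact Or.inl ⟨hyX, hy⟩
      · rintro (⟨hyX, hyn⟩ | ⟨u, hu, rfl⟩)
        · refine ⟨hyX, fun h => hyn ?_⟩
          obtain ⟨u, hu, rfl⟩ := h
          exact ⟨u, ⟨hu.1, hu.2.trans ht1⟩, rfl⟩
        · have huI : u ∈ Icc (0 : ℝ) 1 := ⟨ht0.le.trans hu.1, hu.2⟩
          refine ⟨hsub ⟨u, huI, rfl⟩, ?_⟩
          rintro ⟨v, hv, hvu⟩
          have := hi (hI ⟨hv.1, hv.2.le⟩) huI hvu
          rw [this] at hv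
          linarith [hv.2, hu.1]
    rw [heq]
    refine hcl.union ?_
    exact (isCompact_Icc.image_of_continuousOn
      (hc.mono (Icc_subset_Icc ht0.le le_rfl))).isClosed
  have harc : IsArc (β '' Icc 0 t) 0 (β t) := by
    have hmaps : ∀ u ∈ Icc (0 : ℝ) 1, t * u ∈ Icc 0 t := by
      intro u hu
      have h1 : 0 ≤ t * u := mul_nonneg ht0.le hu.1
      have h2 : t * u ≤ t * 1 := mul_le_mul_of_nonneg_left hu.2 ht0.le
      exact ⟨h1, by linarith⟩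
    refine ⟨fun u => β (t * u), ?_, ?_, ?_, ?_, ?_⟩
    · refine hβc.comp ?_ hmaps
      exact (continuous_const.mul continuous_id).continuousOn
    · intro u hu v hv huv
      have h := hβi (hmaps u hu) (hmaps v hv) huv
      exact mul_left_cancel₀ ht0.ne' h
    · ext z
      constructor
      · rintro ⟨u, hu, rfl⟩
        refine ⟨u / t, ⟨div_nonneg hu.1 ht0.le, ?_⟩, ?_⟩
        · rw [div_le_one ht0]
          exact hu.2
        · show β (t * (u / t)) = β u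
          rw [mul_div_cancel₀ _ ht0.ne']
      · rintro ⟨u, hu, rfl⟩
        exact ⟨_, hmaps u hu, rfl⟩
    · show β (t * 0) = 0
      rw [mul_zero, hβ0]
    · show β (t * 1) = β t
      rw [mul_one]
  refine ⟨e, β t, β '' Icc 0 t,
    sphere 0 1 ∪ (closedBall 0 1 ∩ e ⁻¹' (X \ α '' Ico 0 t)), he, he0, harc, hσcb, ?_,
    ?_, subset_union_left, ?_, ?_, ?_, ?_⟩
  · ext z
    constructor
    · rintro ⟨h1, h2⟩
      exact hsph z h1 h2
    · intro h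
      rw [mem_singleton_iff] at h
      subst h
      exact ⟨hβt, ⟨_, hmt, rfl⟩⟩
  · refine (isCompact_sphere (0 : ℂ) 1).union ?_
    exact (isCompact_closedBall (0 : ℂ) 1).inter_right (hclX.preimage he.continuous)
  · exact union_subset sphere_subset_closedBall inter_subset_left
  · ext z
    constructor
    · rintro ⟨h1 | ⟨-, h1⟩, h2⟩
      · exact hsph z h1 h2
      · obtain ⟨u, hu, rfl⟩ := h2
        rcases htri u hu with rfl | h
        · exact rfl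
        · exact absurd ⟨u, h, (hβ u hu).symm⟩ h1.2
    · intro h
      rw [mem_singleton_iff] at h
      subst h
      exact ⟨Or.inl hβt, ⟨_, hmt, rfl⟩⟩
  · rintro _ ⟨u, hu, rfl⟩
    rw [hβ u hu]
    exact hsub ⟨u, hI hu, rfl⟩
  · intro z hz hzX
    by_cases h : e z ∈ α '' Ico 0 t
    · obtain ⟨u, hu, hue⟩ := h
      right
      have hu' : u ∈ Icc 0 t := ⟨hu.1, hu.2.le⟩
      refine ⟨u, hu', he.injective ?_⟩
      rw [hβ u hu', hue]
    · exact Or.inl (Or.inr ⟨hz, hzX, h⟩)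

theorem free_end (hM : Surf M) {X : Set M} (hX : IsClosed X) {α : ℝ → M}
    (hc : ContinuousOn α (Icc 0 1)) (hi : InjOn α (Icc 0 1)) (hs : α '' Icc 0 1 ⊆ X)
    (hcl : IsClosed (X \ α '' Ico 0 1)) :
    ∃ U : Set M, IsOpen U ∧ α 0 ∈ U ∧ ∀ y ∈ U \ X, ∀ y' ∈ U \ X, y' ∈ connectedComponentIn Xᶜ y := by
  obtain ⟨e, q, σ, Y', he, he0, harc, hσ1, hS, hY, hSY, hY1, hYσ, hσX, hX1⟩ :=
    EndM_plane hM hc hi hs hcl
  obtain ⟨δ, hδ, hball, hconn⟩ := end_plane harc hσ1 hS hY hSY hY1 hYσ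
  -- outside `X`
  have hnot : ∀ z ∈ closedBall (0 : ℂ) 1, z ∈ (Y' ∪ σ)ᶜ → e z ∉ X := by
    intro z hz hn hzX
    exact hn (hX1 z hz hzX)
  have hin : ∀ c ∈ ball (0 : ℂ) δ \ σ, c ∈ (Y' ∪ σ)ᶜ := by
    rintro c ⟨hc, hcσ⟩ (h | h)
    · exact (hball hc).2 h
    · exact hcσ h
  have hcomp : ∀ c ∈ ball (0 : ℂ) δ \ σ, e '' connectedComponentIn (Y' ∪ σ)ᶜ c ⊆
      connectedComponentIn Xᶜ (e c) := by
    intro c hc
    have hK : connectedComponentIn (Y' ∪ σ)ᶜ c ⊆ ball 0 1 :=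
      comp_ball (hSY.trans subset_union_left) (hball hc.1).1
    refine (isPreconnected_connectedComponentIn.image e
      he.continuous.continuousOn).subset_connectedComponentIn ?_ ?_
    · exact ⟨c, mem_connectedComponentIn (hin c hc), rfl⟩
    · rintro _ ⟨z, hz, rfl⟩
      exact hnot z (ball_subset_closedBall (hK hz)) (connectedComponentIn_subset _ _ hz)
  refine ⟨e '' ball 0 δ, he.isOpenMap _ isOpen_ball, ⟨0, mem_ball_self hδ, he0⟩, ?_⟩
  rintro _ ⟨⟨z, hz, rfl⟩, hzX⟩ _ ⟨⟨w, hw, rfl⟩, hwX⟩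
  have hzσ : z ∉ σ := fun h => hzX (hσX z h)
  have hwσ : w ∉ σ := fun h => hwX (hσX w h)
  exact hcomp z ⟨hz, hzσ⟩ ⟨w, hconn z ⟨hz, hzσ⟩ w ⟨hw, hwσ⟩, rfl⟩

/-- the form used for pendant arcs: near the free end `p` of the arc `σ` attached to `X'` (at most at `q`) all points off `X' ∪ σ` are in one component
(`σ = α '' [0,1]`, `α 0 = p`, `α 1 = q`; `(X' ∪ σ) \ α '' Ico 0 1 = X' ∪ {q}`: a point of `X'` on `α '' Ico 0 1` would be in `X' ∩ σ ⊆ {q}`, so equal to `α 1`) -/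
theorem free_end_arc (hM : Surf M) {X' σ : Set M} {p q : M} (hX : IsClosed X') (hσ : IsArc σ p q)
    (h : X' ∩ σ ⊆ {q}) :
    ∃ U : Set M, IsOpen U ∧ p ∈ U ∧ ∀ y ∈ U \ (X' ∪ σ), ∀ y' ∈ U \ (X' ∪ σ),
      y' ∈ connectedComponentIn (X' ∪ σ)ᶜ y := by
  have hσc : IsClosed σ := hσ.compact.isClosed
  obtain ⟨α, hc, hi, rfl, rfl, rfl⟩ := hσ
  refine free_end hM (hX.union hσc) hc hi subset_union_right ?_
  have h1 : (1 : ℝ) ∈ Icc (0 : ℝ) 1 := ⟨zero_le_one, le_rfl⟩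
  have heq : (X' ∪ α '' Icc 0 1) \ α '' Ico 0 1 = X' ∪ {α 1} := by
    ext x
    constructor
    · rintro ⟨hx | ⟨u, hu, rfl⟩, hn⟩
      · exact Or.inl hx
      · rcases hu.2.eq_or_lt with h' | h'
        · right
          rw [h']
          exact rfl
        · exact absurd ⟨u, ⟨hu.1, h'⟩, rfl⟩ hn
    · rintro (hx | hx)
      · refine ⟨Or.inl hx, ?_⟩
        rintro ⟨u, hu, rfl⟩
        have h2 : α u = α 1 := h ⟨hx, ⟨u, ⟨hu.1, hu.2.le⟩, rfl⟩⟩
        have h3 := hi ⟨hu.1, hu.2.le⟩ h1 h2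
        rw [h3] at hu
        exact lt_irrefl _ hu.2
      · rw [mem_singleton_iff] at hx
        subst hx
        refine ⟨Or.inr ⟨1, h1, rfl⟩, ?_⟩
        rintro ⟨u, hu, hu1⟩
        have h3 := hi ⟨hu.1, hu.2.le⟩ h1 hu1
        rw [h3] at hu
        exact lt_irrefl _ hu.2
  rw [heq]
  exact hX.union isClosed_singleton

end Pool.Agent.H94.PQ
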