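import Pool.Agent.H61.PO.Dual
import Pool.Agent.H61.PO.Glue
import Pool.Agent.H61.PO.Triv

/-!
# PQV-2: the end of an arc, in the plane

`0 ∉ Y'` (`Y' ∩ σ = {q}`, `0 ∈ σ` and `q ≠ 0` since `q ∈ sphere 0 1`: from `hS`), `Y'` is compact: there is `δ > 0` with `ball 0 δ ∩ Y' = ∅`, `δ ≤ 1`.
Let `p1, p2 ∈ ball 0 δ \ σ`, `Y = Y' ∪ σ` (compact, `sphere 0 1 ⊆ Y ⊆ closedBall 0 1`).  `th p1 + th p2` is a cocycle on `Y`
(`th_coc`, `Coc.mono`, `Coc.add`; `p1, p2 ∉ Y`); `Cob Y'` by `th_seg` (the segment is in `ball 0 δ`, convex), `Cob σ` since an arc is `Triv`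
(`IsArc.triv`); `Y' ∩ σ = {q}` is preconnected: `glueCob_conn` gives `Cob Y (th p1 + th p2)`; `dual` (`R = 1`) gives the claim.
Model: the proof of `free_claim` in `Pool/Agent/H61/PO/LocalP.lean`.
-/

namespace Pool.Agent.H94.PQ

open Set Filter Topology Metric Pool.Agent.H61.PO

theorem end_plane {σ Y' : Set ℂ} {q : ℂ} (hσ : IsArc σ 0 q) (hR : σ ⊆ closedBall 0 1)
    (hS : sphere 0 1 ∩ σ = {q}) (hY : IsCompact Y') (hSY : sphere 0 1 ⊆ Y')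
    (hY1 : Y' ⊆ closedBall 0 1) (hYσ : Y' ∩ σ = {q}) :
    ∃ δ : ℝ, 0 < δ ∧ ball (0 : ℂ) δ ⊆ ball 0 1 \ Y' ∧
      ∀ p1 ∈ ball 0 δ \ σ, ∀ p2 ∈ ball 0 δ \ σ, p2 ∈ connectedComponentIn (Y' ∪ σ)ᶜ p1 := by
  have hq : q ∈ sphere (0 : ℂ) 1 ∩ σ := by rw [hS]; exact rfl
  have h0σ : (0 : ℂ) ∈ σ := hσ.mem.1
  have h01 : (0 : ℂ) ∉ sphere (0 : ℂ) 1 := by simp
  have h0Y : (0 : ℂ) ∉ Y' := by
    intro h
    have h2 : (0 : ℂ) ∈ ({q} : Set ℂ) := by rw [← hYσ]; exact ⟨h, h0σ⟩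
    rw [mem_singleton_iff] at h2
    exact h01 (h2 ▸ hq.1)
  have hopen : IsOpen (ball (0 : ℂ) 1 \ Y') := isOpen_ball.sdiff hY.isClosed
  obtain ⟨δ, hδ0, hδ⟩ := Metric.isOpen_iff.1 hopen 0 ⟨by simp, h0Y⟩
  refine ⟨δ, hδ0, hδ, ?_⟩
  intro p1 h1 p2 h2
  have key : ∀ z ∈ ball (0 : ℂ) δ \ σ, z ∈ ball (0 : ℂ) 1 \ (Y' ∪ σ) := by
    intro z hz
    refine ⟨(hδ hz.1).1, ?_⟩
    rintro (hzY | hzσ)
    · exact (hδ hz.1).2 hzY
    · exact hz.2 hzσ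
  have hcoc : Coc (Y' ∪ σ) (th p1 + th p2) := by
    have e1 : Y' ∪ σ ⊆ ({p1}ᶜ : Set ℂ) := by
      intro z hz h
      rw [mem_singleton_iff] at h
      exact (key p1 h1).2 (h ▸ hz)
    have e2 : Y' ∪ σ ⊆ ({p2}ᶜ : Set ℂ) := by
      intro z hz h
      rw [mem_singleton_iff] at h
      exact (key p2 h2).2 (h ▸ hz)
    exact ((th_coc p1).mono e1).add ((th_coc p2).mono e2)
  have hco1 : Cob Y' (th p1 + th p2) := by
    refine th_seg hY ?_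
    intro x hx
    exact (hδ ((convex_ball (0 : ℂ) δ).segment_subset h1.1 h2.1 hx)).2
  have hco2 : Cob σ (th p1 + th p2) := hσ.triv _ (hcoc.mono subset_union_right)
  refine dual (hY.union hσ.compact) (hSY.trans subset_union_left) (union_subset hY1 hR)
    (key p1 h1) (key p2 h2) ?_
  refine glueCob_conn hY.isClosed hσ.compact.isClosed hcoc hco1 hco2 ?_
  rw [hYσ]
  exact isPreconnected_singleton

end Pool.Agent.H94.PQ
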