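import Pool.Agent.H94.PQ.Gb
import Pool.Agent.H61.PO.Ext

/-!
# PQW-5: classes on the graph extend to the complement of discs, one in every component

`dsc T = ⋃ W ∈ T, e W '' ball 0 1`, `⋃₀ (comps \ T)`.  `ext_all`: by induction on the finite set `T ⊆ Γ.comps` (`Finset.induction_on` or `Set.Finite.induction_on_subset`): every `g` with `Coc Γ.set g` has a `g'` with
`Coc (K T) g'`, `Cob Γ.set (g + g')`, where `K T = ((⋃ W ∈ T, e W '' ball 0 1) ∪ ⋃₀ (Γ.comps \ T))ᶜ`.  `K T` is closed (discs and components are open, `comp_open`).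
 `T = ∅`: `⋃₀ Γ.comps = (Γ.set)ᶜ` (`mem_comps`, `comp_disj_set`), so `K ∅ = Γ.set`.
 Step `T → insert W T`, `W ∉ T`, `W ∈ Γ.comps`: `Z = K T ∪ W`.  `Z = ((⋃ W' ∈ T, e W' '' ball 0 1) ∪ ⋃₀ (Γ.comps \ insert W T))ᶜ` is closed, hence compact: `W` is disjoint from the discs `e W' '' ball 0 1 ⊆ W'`, `W' ∈ T`, and from the other components
 (`comps_disj`).  `U = W` is open, preconnected, `Z \ W = K T` (`K T ∩ W = ∅`), `Z \ e W '' ball 0 1 = K (insert W T)`.  `ext_main hM` (`e W '' closedBall 0 1 ⊆ W`): from `g'` on `K T` we get `g''` on `K (insert W T)` with `Cob (K T) (g' + g'')`; `Γ.set ⊆ K T` (`comp_disj_set`);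
 `Cob.trans`.
`ext_N`: `T = Γ.comps`: `K = (⋃ W ∈ Γ.comps, e W '' ball 0 1)ᶜ`.
-/

namespace Pool.Agent.H94.PQ

open Set Filter Topology Metric Pool.Agent.H61.PO

variable {M : Type*} [MetricSpace M] [CompactSpace M]

/-- the set of the complement of the discs of `T` and of the other components -/
private def extK (Γ : Gr M) (e : Set M → ℂ → M) (T : Set (Set M)) : Set M :=
  ((⋃ W ∈ T, e W '' ball 0 1) ∪ ⋃₀ (Γ.comps \ T))ᶜ

omit [CompactSpace M] in
private theorem extK_mem {Γ : Gr M} {e : Set M → ℂ → M} {T : Set (Set M)} {x : M} :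
    x ∈ extK Γ e T ↔ (∀ W ∈ T, x ∉ e W '' ball 0 1) ∧ ∀ W ∈ Γ.comps, W ∉ T → x ∉ W := by
  unfold extK
  simp only [mem_compl_iff, mem_union, mem_iUnion, exists_prop, mem_sUnion, Set.mem_sdiff, not_or,
    not_exists, not_and]
  constructor
  · rintro ⟨h1, h2⟩
    exact ⟨h1, fun W hW hT => h2 W ⟨hW, hT⟩⟩
  · rintro ⟨h1, h2⟩
    exact ⟨h1, fun W hW => h2 W hW.1 hW.2⟩

omit [CompactSpace M] in
private theorem extK_set {Γ : Gr M} {e : Set M → ℂ → M}
    (heW : ∀ W ∈ Γ.comps, e W '' closedBall 0 1 ⊆ W) {T : Set (Set M)} (hT : T ⊆ Γ.comps) :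
    Γ.set ⊆ extK Γ e T := by
  intro x hx
  rw [extK_mem]
  refine ⟨fun W hW h => ?_, fun W hW _ h => ?_⟩
  · exact disjoint_left.1 (comp_disj_set Γ (hT hW))
      (heW W (hT hW) (image_mono ball_subset_closedBall h)) hx
  · exact disjoint_left.1 (comp_disj_set Γ hW) h hx

private theorem extK_all (hM : Surf M) (Γ : Gr M) (e : Set M → ℂ → M)
    (he : ∀ W ∈ Γ.comps, IsOpenEmbedding (e W)) (heW : ∀ W ∈ Γ.comps, e W '' closedBall 0 1 ⊆ W)
    {g : M → M → ZMod 2} (hg : Coc Γ.set g) (T : Finset (Set M)) :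
    (T : Set (Set M)) ⊆ Γ.comps → ∃ g' : M → M → ZMod 2, Coc (extK Γ e T) g' ∧
      Cob Γ.set (g + g') := by
  classical
  induction T using Finset.induction_on with
  | empty =>
    intro _
    have h1 : extK Γ e ((∅ : Finset (Set M)) : Set (Set M)) = Γ.set := by
      apply Subset.antisymm
      · intro x hx
        rw [extK_mem] at hx
        by_contra hxs
        obtain ⟨W, hW, hxW⟩ := mem_comps Γ hxs
        exact hx.2 W hW (by simp) hxW
      · exact extK_set heW (by simp)
    refine ⟨g, ?_, ?_⟩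
    · rw [h1]
      exact hg
    · rw [add_self]
      exact Cob.zero _
  | insert W T hWT ih =>
    intro hT
    rw [Finset.coe_insert] at hT ⊢
    have hW : W ∈ Γ.comps := hT (mem_insert _ _)
    have hT' : (T : Set (Set M)) ⊆ Γ.comps := (subset_insert _ _).trans hT
    obtain ⟨g1, hg1, hg1'⟩ := ih hT'
    have hWT' : W ∉ (T : Set (Set M)) := by
      simpa using hWT
    have hWo : IsOpen W := comp_open hM Γ hW
    have hWp : IsPreconnected W := comp_preconn Γ hW
    set Z : Set M := extK Γ e T ∪ W with hZ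
    -- Z is closed
    have hZe : Z = ((⋃ W' ∈ (T : Set (Set M)), e W' '' ball 0 1) ∪
        ⋃₀ (Γ.comps \ insert W (T : Set (Set M))))ᶜ := by
      ext x
      rw [hZ, mem_union, extK_mem]
      simp only [mem_compl_iff, mem_union, mem_iUnion, exists_prop, mem_sUnion, Set.mem_sdiff, not_or,
        not_exists, not_and, mem_insert_iff]
      constructor
      · rintro (⟨h1, h2⟩ | h)
        · exact ⟨h1, fun W' hW' => h2 W' hW'.1 hW'.2.2⟩
        · refine ⟨fun W' hW' h' => ?_, fun W' hW' h' => ?_⟩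
          · have hne : W ≠ W' := by
              rintro rfl
              exact hWT' hW'
            exact disjoint_left.1 (comps_disj Γ hW (hT' hW') hne) h
              (heW W' (hT' hW') (image_mono ball_subset_closedBall h'))
          · have hne : W ≠ W' := fun h3 => hW'.2.1 h3.symm
            exact disjoint_left.1 (comps_disj Γ hW hW'.1 hne) h h'
      · rintro ⟨h1, h2⟩
        by_cases hx : x ∈ W
        · exact Or.inr hx
        · refine Or.inl ⟨h1, fun W' hW' hT2 h' => ?_⟩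
          by_cases h3 : W' = W
          · exact hx (h3 ▸ h')
          · exact h2 W' ⟨hW', h3, hT2⟩ h'
    have hZc : IsClosed Z := by
      rw [hZe, isClosed_compl_iff]
      refine IsOpen.union ?_ ?_
      · exact isOpen_biUnion fun W' hW' => (he W' (hT' hW')).isOpenMap _ isOpen_ball
      · exact isOpen_sUnion fun W' hW' => comp_open hM Γ hW'.1
    have hZW : Z \ W = extK Γ e T := by
      rw [hZ, union_sdiff_right]
      refine sdiff_eq_left.2 ?_
      rw [disjoint_left]
      intro x hx hxW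
      rw [extK_mem] at hx
      exact hx.2 W hW hWT' hxW
    have hZD : Z \ e W '' ball 0 1 = extK Γ e (insert W (T : Set (Set M))) := by
      ext x
      rw [hZe, extK_mem]
      simp only [mem_compl_iff, mem_union, mem_iUnion, exists_prop, mem_sUnion, Set.mem_sdiff, not_or,
        not_exists, not_and, mem_insert_iff]
      constructor
      · rintro ⟨⟨h1, h2⟩, h3⟩
        refine ⟨fun W' hW' => ?_, fun W' hW' hn => h2 W' ⟨hW', hn⟩⟩
        rcases hW' with rfl | hW'
        · exact h3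
        · exact h1 W' hW'
      · rintro ⟨h1, h2⟩
        exact ⟨⟨fun W' hW' => h1 W' (Or.inr hW'), fun W' hW' => h2 W' hW'.1 hW'.2⟩,
          h1 W (Or.inl rfl)⟩
    have hg2 : Coc (Z \ W) g1 := by
      rw [hZW]
      exact hg1
    obtain ⟨g2, hg3, hg4⟩ := ext_main hM hZc.isCompact hWo subset_union_right hWp (he W hW)
      (heW W hW) hg2
    rw [hZW] at hg4
    rw [hZD] at hg3
    exact ⟨g2, hg3, hg1'.trans (hg4.mono (extK_set heW hT'))⟩

theorem ext_N (hM : Surf M) (Γ : Gr M) (hf : Γ.comps.Finite) (e : Set M → ℂ → M)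
    (he : ∀ W ∈ Γ.comps, IsOpenEmbedding (e W)) (heW : ∀ W ∈ Γ.comps, e W '' closedBall 0 1 ⊆ W)
    {g : M → M → ZMod 2} (hg : Coc Γ.set g) :
    ∃ g' : M → M → ZMod 2, Coc ((⋃ W ∈ Γ.comps, e W '' ball 0 1)ᶜ : Set M) g' ∧
      Cob Γ.set (g + g') := by
  obtain ⟨g', h1, h2⟩ := extK_all hM Γ e he heW hg hf.toFinset (by simp)
  refine ⟨g', ?_, h2⟩
  rw [hf.coe_toFinset] at h1
  have h3 : extK Γ e Γ.comps = ((⋃ W ∈ Γ.comps, e W '' ball 0 1)ᶜ : Set M) := by
    unfold extK
    simp
  rw [h3] at h1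
  exact h1

end Pool.Agent.H94.PQ
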