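import Pool.Agent.H94.PQ.HEq

/-!
# PQU-3: independence of the disc, on a connected surface

Write `H e = h1 ((e '' ball 0 1)ᶜ)`.  `same_of_mem`: if `x ∈ e '' ball 0 1` and `x ∈ e' '' ball 0 1` then `H e = H e'`: `Surf` gives an open embedding `e1` with `e1 0 = x` and `range e1 ⊆ e '' ball 0 1 ∩ e' '' ball 0 1`
(open neighbourhood of `x`); `h1_eq_of_sub` twice (`e1 '' closedBall 0 1 ⊆ range e1`).
`h1_const`: fix `e`.  The set `A` of all points `x` for which there is an open embedding `e'` with `x ∈ e' '' ball 0 1` and `H e' = H e` is open (union of open discs) and its complement is open: if `x ∉ A`, take any disc `e'`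
with `e' 0 = x` (`Surf` with `V = univ`); all points `y` of `e' '' ball 0 1` are not in `A` (if `y ∈ e'' '' ball 0 1` and `H e'' = H e` then `H e' = H e''` by `same_of_mem`, so `x ∈ A`).  `A` contains `e 0`.  `M` is connected, so `A = univ`
(`IsClopen.eq_univ`).  For `e'`: `e' 0 ∈ A`: `same_of_mem`.
-/

namespace Pool.Agent.H94.PQ

open Set Filter Topology Metric Pool.Agent.H61.PO

variable {M : Type*} [MetricSpace M] [CompactSpace M]

theorem same_of_mem (hM : Surf M) {e e' : ℂ → M} (he : IsOpenEmbedding e)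
    (he' : IsOpenEmbedding e') {x : M} (h : x ∈ e '' ball 0 1) (h' : x ∈ e' '' ball 0 1) :
    h1 ((e '' ball 0 1)ᶜ : Set M) = h1 ((e' '' ball 0 1)ᶜ : Set M) := by
  have ho : IsOpen (e '' ball 0 1 ∩ e' '' ball 0 1) :=
    (he.isOpenMap _ isOpen_ball).inter (he'.isOpenMap _ isOpen_ball)
  obtain ⟨e1, he1, -, h1sub⟩ := hM x _ (ho.mem_nhds ⟨h, h'⟩)
  have hs : e1 '' closedBall 0 1 ⊆ e '' ball 0 1 ∩ e' '' ball 0 1 :=
    (image_subset_range _ _).trans h1sub
  rw [← h1_eq_of_sub hM he1 he (hs.trans inter_subset_left),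
    ← h1_eq_of_sub hM he1 he' (hs.trans inter_subset_right)]

theorem h1_const [PreconnectedSpace M] (hM : Surf M) {e e' : ℂ → M} (he : IsOpenEmbedding e)
    (he' : IsOpenEmbedding e') :
    h1 ((e '' ball 0 1)ᶜ : Set M) = h1 ((e' '' ball 0 1)ᶜ : Set M) := by
  set A : Set M := {x | ∃ f : ℂ → M, IsOpenEmbedding f ∧ x ∈ f '' ball 0 1 ∧
    h1 ((f '' ball 0 1)ᶜ : Set M) = h1 ((e '' ball 0 1)ᶜ : Set M)} with hA
  have h0 : (0 : ℂ) ∈ ball (0 : ℂ) 1 := mem_ball_self one_pos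
  have hopen : IsOpen A := by
    rw [isOpen_iff_mem_nhds]
    rintro x ⟨f, hf, hx, hfe⟩
    exact Filter.mem_of_superset ((hf.isOpenMap _ isOpen_ball).mem_nhds hx)
      fun y hy => ⟨f, hf, hy, hfe⟩
  have hclosed : IsClosed A := by
    rw [← isOpen_compl_iff, isOpen_iff_mem_nhds]
    intro x hx
    obtain ⟨f, hf, hfx, -⟩ := hM x univ univ_mem
    have hxf : x ∈ f '' ball 0 1 := ⟨0, h0, hfx⟩
    refine Filter.mem_of_superset ((hf.isOpenMap _ isOpen_ball).mem_nhds hxf) ?_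
    rintro y hy ⟨g, hg, hyg, hge⟩
    exact hx ⟨f, hf, hxf, (same_of_mem hM hf hg hy hyg).trans hge⟩
  have hne : A.Nonempty := ⟨e 0, e, he, ⟨0, h0, rfl⟩, rfl⟩
  have hall : A = univ := IsClopen.eq_univ ⟨hclosed, hopen⟩ hne
  obtain ⟨f, hf, hxf, hfe⟩ : e' 0 ∈ A := hall ▸ mem_univ _
  exact hfe.symm.trans (same_of_mem hM hf he' hxf ⟨0, h0, rfl⟩)

end Pool.Agent.H94.PQ
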