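import Pool.Agent.H94.PQ.HolG

/-!
# PQW-3: the dimension of the first cohomology of a graph

`card_cut`: `cut` kills the constant function `1 ≠ 0` (`Γ.κ` is nonempty as there are edges), so its kernel has dimension at least `1`: rank-nullity (`LinearMap.finrank_range_add_finrank_ker`) gives `finrank (range cut) + 1 ≤ card κ`.
`card_le`: the map `Zc Γ.set → (ι → ZMod 2) ⧸ range cut` is onto and kills `Bc`; so it descends to `Hc Γ.set` (`Submodule.liftQ`), onto; `finrank ((ι → ZMod 2) ⧸ range cut) = card ι - finrank (range cut)` (`Submodule.finrank_quotient_add_finrank`),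
`LinearMap.finrank_le_finrank_of_surjective`-type lemma (`Submodule`: `LinearMap.finrank_range_le`, `finrank_top`).
-/

namespace Pool.Agent.H94.PQ

open Set Filter Topology Pool.Agent.H61.PO

variable {M : Type*} [MetricSpace M]

theorem card_cut (Γ : Gr M) : Module.finrank (ZMod 2) (LinearMap.range (cut Γ)) + 1 ≤
    Nat.card Γ.κ := by
  let _ := Γ.fκ
  let _ := Γ.fι
  have h1 := LinearMap.finrank_range_add_finrank_ker (cut Γ)
  rw [Module.finrank_fintype_fun_eq_card, ← Nat.card_eq_fintype_card] at h1
  have h2 : 1 ≤ Module.finrank (ZMod 2) (LinearMap.ker (cut Γ)) := by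
    rw [Submodule.one_le_finrank_iff, Submodule.ne_bot_iff]
    have hi : Nonempty Γ.ι := by
      rw [← not_isEmpty_iff]
      intro he
      have := Γ.four
      rw [Nat.card_of_isEmpty] at this
      omega
    obtain ⟨i⟩ := hi
    refine ⟨fun _ => 1, ?_, ?_⟩
    · rw [LinearMap.mem_ker]
      funext j
      have : (1 : ZMod 2) + 1 = 0 := by decide
      exact this
    · intro h0
      have := congrFun h0 (Γ.s i)
      exact one_ne_zero this
  omega

theorem card_le (Γ : Gr M) (hf : Module.Finite (ZMod 2) (Hc Γ.set)) :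
    Nat.card Γ.ι + 1 ≤ Nat.card Γ.κ + h1 Γ.set := by
  let _ := Γ.fκ
  let _ := Γ.fι
  have hle : (Bc Γ.set).comap (Zc Γ.set).subtype ≤
      LinearMap.ker ((LinearMap.range (cut Γ)).mkQ ∘ₗ hol Γ) := by
    intro g hg
    rw [LinearMap.mem_ker, LinearMap.comp_apply, Submodule.mkQ_apply,
      Submodule.Quotient.mk_eq_zero]
    exact hol_mem_of_cob Γ g hg
  have hsurj : Function.Surjective (Submodule.liftQ _ _ hle) := by
    intro y
    obtain ⟨u, rfl⟩ := Submodule.mkQ_surjective _ y
    obtain ⟨g, rfl⟩ := hol_surj Γ u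
    exact ⟨Submodule.Quotient.mk g, Submodule.liftQ_apply _ _ _⟩
  have hh1 : Module.finrank (ZMod 2) ((Γ.ι → ZMod 2) ⧸ LinearMap.range (cut Γ)) ≤ h1 Γ.set :=
    LinearMap.finrank_le_finrank_of_surjective hsurj
  have h2 := Submodule.finrank_quotient_add_finrank (LinearMap.range (cut Γ))
  rw [Module.finrank_fintype_fun_eq_card, ← Nat.card_eq_fintype_card] at h2
  have h3 := card_cut Γ
  omega

end Pool.Agent.H94.PQ
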