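import Pool.Agent.H94.PQ.Res
import Pool.Agent.H61.PO.Glue
import Pool.Agent.H61.PO.Circ
import Pool.Agent.H61.PO.Triv

/-!
# PQW-4: removing a disc increases the first cohomology by at most one

`A' = A \ e '' ball 0 1`, `γ = e '' sphere 0 1 ⊆ A'`, an `SCC` (`scc_sphere`, `SCC.image`).  `φ = res : Hc A' → Hc γ`.  Two classes in `Hc γ` which are not zero are equal (`SCC.two`, `cls_eq_iff`), so `Hc γ` (and `range φ`) is finite with `finrank ≤ 1`
(`finrank_le_one` with a nonzero element `v` if there is one: every element is `0 • v` or `1 • v`).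
`ker φ ≤ range (res : Hc A → Hc A')`: let `g` be a cocycle on `A'` which is a coboundary on `γ`.  `glue` for the closed sets `A'` and `C = e '' closedBall 0 1` (compact), `g1 = g`, `g2 = 0`, `A' ∩ C = γ`: there is a cocycle `g'` on `A' ∪ C = A` with
`Cob A' (g' + g)`: `cls g = res (cls g')`.
`Hc A` is finite, so `range res` is finite, so `ker φ` is finite, so `Hc A'` is finite (`Module.Finite.of_submodule_quotient`, `Hc A' ⧸ ker φ ≃ range φ`; or directly with `Finite`: the map `Hc A' → Hc γ` has finite fibres), and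
`finrank Hc A' = finrank (ker φ) + finrank (range φ) ≤ finrank (Hc A) + 1` (`LinearMap.finrank_range_add_finrank_ker`, `Submodule.finrank_mono`, `LinearMap.finrank_range_le`).
-/

namespace Pool.Agent.H94.PQ

open Set Filter Topology Metric Pool.Agent.H61.PO

variable {M : Type*} [MetricSpace M]

theorem h1_scc {γ : Set M} (hγ : SCC γ) :
    Module.Finite (ZMod 2) (Hc γ) ∧ h1 γ ≤ 1 := by
  obtain ⟨g0, hg0, hn0⟩ := hγ.class
  have key : ∀ w : Hc γ, ∃ c : ZMod 2, c • cls γ g0 hg0 = w := by
    intro w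
    obtain ⟨g, hg, rfl⟩ := exists_rep w
    by_cases hc : Cob γ g
    · refine ⟨0, ?_⟩
      rw [zero_smul]
      exact (cls_eq_zero_iff.2 hc).symm
    · refine ⟨1, ?_⟩
      rw [one_smul, cls_eq_iff]
      exact hγ.two hg0 hg hn0 hc
  refine ⟨?_, finrank_le_one _ key⟩
  exact Module.Finite.of_surjective (LinearMap.toSpanSingleton (ZMod 2) (Hc γ) (cls γ g0 hg0))
    fun w => key w

theorem h1_step {A : Set M} (hA : IsClosed A) {e : ℂ → M} (he : IsOpenEmbedding e)
    (h : e '' closedBall 0 1 ⊆ A) (hf : Module.Finite (ZMod 2) (Hc A)) :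
    Module.Finite (ZMod 2) (Hc (A \ e '' ball 0 1)) ∧ h1 (A \ e '' ball 0 1) ≤ h1 A + 1 := by
  have hA' : IsClosed (A \ e '' ball 0 1) := hA.sdiff (he.isOpenMap _ isOpen_ball)
  have hC : IsClosed (e '' closedBall 0 1) :=
    ((isCompact_closedBall (0 : ℂ) 1).image he.continuous).isClosed
  have hSCC : SCC (e '' sphere 0 1) :=
    (scc_sphere one_pos).image he.continuous.continuousOn he.injective.injOn
  have hγ : e '' sphere 0 1 ⊆ A \ e '' ball 0 1 := by
    rintro _ ⟨z, hz, rfl⟩
    refine ⟨h ⟨z, sphere_subset_closedBall hz, rfl⟩, ?_⟩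
    rintro ⟨w, hw, hwz⟩
    rw [he.injective hwz] at hw
    rw [mem_sphere] at hz
    rw [mem_ball] at hw
    linarith
  have hint : (A \ e '' ball 0 1) ∩ e '' closedBall 0 1 ⊆ e '' sphere 0 1 := by
    rintro _ ⟨⟨-, hn⟩, ⟨z, hz, rfl⟩⟩
    refine ⟨z, ?_, rfl⟩
    rw [mem_closedBall] at hz
    rw [mem_sphere]
    refine le_antisymm hz ?_
    by_contra hlt
    exact hn ⟨z, by rw [mem_ball]; exact not_le.1 hlt, rfl⟩
  have huni : (A \ e '' ball 0 1) ∪ e '' closedBall 0 1 = A := by
    apply Subset.antisymm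
    · exact union_subset diff_subset h
    · intro x hx
      by_cases hxb : x ∈ e '' ball 0 1
      · exact Or.inr (image_mono ball_subset_closedBall hxb)
      · exact Or.inl ⟨hx, hxb⟩
  obtain ⟨f1, f2⟩ := h1_scc hSCC
  have hker : LinearMap.ker (res hγ) ≤
      LinearMap.range (res (diff_subset : A \ e '' ball 0 1 ⊆ A)) := by
    intro x hx
    obtain ⟨g, hg, rfl⟩ := exists_rep x
    rw [LinearMap.mem_ker, res_cls, cls_eq_zero_iff] at hx
    have hcob : Cob ((A \ e '' ball 0 1) ∩ e '' closedBall 0 1) (g + fun _ _ => 0) := by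
      have e0 : (g + fun _ _ => 0 : M → M → ZMod 2) = g := by
        funext a b
        simp
      rw [e0]
      exact hx.mono hint
    obtain ⟨g', hg', hc1, -⟩ := glue hA' hC hg (Coc.zero _) hcob
    rw [huni] at hg'
    refine ⟨cls A g' hg', ?_⟩
    rw [res_cls, cls_eq_iff]
    exact hc1
  haveI := f1
  haveI := hf
  haveI i1 : Module.Finite (ZMod 2) (LinearMap.ker (res hγ)) :=
    Module.Finite.of_injective (Submodule.inclusion hker) (Submodule.inclusion_injective hker)
  haveI i2 : Module.Finite (ZMod 2) (LinearMap.range (res hγ)) := inferInstance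
  haveI i3 : Module.Finite (ZMod 2) (Hc (A \ e '' ball 0 1) ⧸ LinearMap.ker (res hγ)) :=
    Module.Finite.equiv (LinearMap.quotKerEquivRange (res hγ)).symm
  haveI i4 : Module.Finite (ZMod 2) (Hc (A \ e '' ball 0 1)) :=
    Module.Finite.of_submodule_quotient (LinearMap.ker (res hγ))
  refine ⟨i4, ?_⟩
  have h3 := LinearMap.finrank_range_add_finrank_ker (res hγ)
  have h4 : Module.finrank (ZMod 2) (LinearMap.range (res hγ)) ≤ 1 :=
    (Submodule.finrank_le _).trans f2
  have h5 : Module.finrank (ZMod 2) (LinearMap.ker (res hγ)) ≤ Module.finrank (ZMod 2) (Hc A) :=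
    (Submodule.finrank_mono hker).trans (LinearMap.finrank_range_le _)
  unfold h1
  omega

end Pool.Agent.H94.PQ
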