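import Pool.Agent.H94.PQ.Count
import Pool.Agent.H94.PQ.HConst
import Pool.Agent.H94.PQ.HolK
import Pool.Agent.H94.PQ.Step
import Pool.Agent.H94.PQ.ExtN

/-!
# PQW-6: the Euler inequality

`exists_discs`: every component is open and not empty: `Surf`.
`h1_discs`: for a finite set `T ⊆ Γ.comps` which contains `W0`: `Hc (⋃ W ∈ T, e W '' ball 0 1)ᶜ` is finite and `h1 (...)ᶜ + 1 ≤ h1 ((e W0 '' ball 0 1)ᶜ) + T.card`.  Induction on `T \ {W0}`, i.e. prove for a finset `T` with `W0 ∉ T`, `T ⊆ Γ.comps`: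
`h1 ((e W0 '' ball 0 1 ∪ ⋃ W ∈ T, e W '' ball 0 1)ᶜ) ≤ h1 ((e W0 '' ball 0 1)ᶜ) + T.card`; start `hc_finite`; step `h1_step` with `A = (...)ᶜ` closed, `A \ e W '' ball 0 1 = (... ∪ e W '' ball 0 1)ᶜ`, `e W '' closedBall 0 1 ⊆ A` as `W` is disjoint from the
other components (`comps_disj`).
`euler`: `comps_finite`, `comps_nonempty` (`W0`), `N = (⋃ W ∈ Γ.comps, e W '' ball 0 1)ᶜ ⊇ Γ.set`.  `res : Hc N → Hc Γ.set` is onto (`res_surj`, `ext_N`), so `Hc Γ.set` is finite and `h1 Γ.set ≤ h1 N ≤ h1 ((e W0 '' ball 0 1)ᶜ) + (F - 1)`;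
`h1 ((e W0 '' ball 0 1)ᶜ) = h1 ((e '' ball 0 1)ᶜ)` by `h1_const`; `card_le`.
-/

namespace Pool.Agent.H94.PQ

open Set Filter Topology Metric Pool.Agent.H61.PO

variable {M : Type*} [MetricSpace M] [CompactSpace M]

theorem exists_discs (hM : Surf M) (Γ : Gr M) : ∃ e : Set M → ℂ → M,
    (∀ W ∈ Γ.comps, IsOpenEmbedding (e W)) ∧ ∀ W ∈ Γ.comps, e W '' closedBall 0 1 ⊆ W := by
  classical
  obtain ⟨W0, hW0⟩ := comps_nonempty hM Γ
  obtain ⟨x0, -⟩ := comp_nonempty Γ hW0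
  have h1 : ∀ W : Set M, ∃ f : ℂ → M, W ∈ Γ.comps →
      IsOpenEmbedding f ∧ f '' closedBall 0 1 ⊆ W := by
    intro W
    by_cases hW : W ∈ Γ.comps
    · obtain ⟨w, hw⟩ := comp_nonempty Γ hW
      obtain ⟨f, hf, -, hfr⟩ := hM w W ((comp_open hM Γ hW).mem_nhds hw)
      exact ⟨f, fun _ => ⟨hf, (image_subset_range _ _).trans hfr⟩⟩
    · exact ⟨fun _ => x0, fun h => absurd h hW⟩
  choose e he using h1
  exact ⟨e, fun W hW => (he W hW).1, fun W hW => (he W hW).2⟩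

private theorem euler_ind (hM : Surf M) (Γ : Gr M) (e : Set M → ℂ → M)
    (he : ∀ W ∈ Γ.comps, IsOpenEmbedding (e W)) (heW : ∀ W ∈ Γ.comps, e W '' closedBall 0 1 ⊆ W)
    {W0 : Set M} (h0 : W0 ∈ Γ.comps) (T : Finset (Set M)) :
    (∀ W ∈ T, W ∈ Γ.comps ∧ W ≠ W0) →
    Module.Finite (ZMod 2) (Hc ((e W0 '' ball 0 1 ∪ ⋃ W ∈ T, e W '' ball 0 1)ᶜ : Set M)) ∧
      h1 ((e W0 '' ball 0 1 ∪ ⋃ W ∈ T, e W '' ball 0 1)ᶜ : Set M) ≤
        h1 ((e W0 '' ball 0 1)ᶜ : Set M) + T.card := by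
  classical
  induction T using Finset.induction_on with
  | empty =>
    intro _
    have h1 : ((e W0 '' ball 0 1 ∪ ⋃ W ∈ (∅ : Finset (Set M)), e W '' ball 0 1)ᶜ : Set M) =
        (e W0 '' ball 0 1)ᶜ := by
      simp
    rw [h1]
    have h2 : Finite (Hc ((e W0 '' ball 0 1)ᶜ : Set M)) := hc_finite hM (he W0 h0)
    exact ⟨inferInstance, by simp⟩
  | insert W T hWT ih =>
    intro hT
    obtain ⟨hW, hne⟩ := hT W (Finset.mem_insert_self _ _)
    obtain ⟨i1, i2⟩ := ih fun W' hW' => hT W' (Finset.mem_insert_of_mem hW')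
    set A : Set M := (e W0 '' ball 0 1 ∪ ⋃ W ∈ T, e W '' ball 0 1)ᶜ with hA
    have hAc : IsClosed A := by
      rw [hA, isClosed_compl_iff]
      refine IsOpen.union ((he W0 h0).isOpenMap _ isOpen_ball) ?_
      exact isOpen_biUnion fun W' hW' =>
        (he W' (hT W' (Finset.mem_insert_of_mem hW')).1).isOpenMap _ isOpen_ball
    have hsub : e W '' closedBall 0 1 ⊆ A := by
      intro x hx
      rw [hA]
      simp only [mem_compl_iff, mem_union, mem_iUnion, exists_prop, not_or, not_exists, not_and]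
      have hxW : x ∈ W := heW W hW hx
      refine ⟨fun h => ?_, fun W' hW' h => ?_⟩
      · exact disjoint_left.1 (comps_disj Γ hW h0 hne) hxW
          (heW W0 h0 (image_mono ball_subset_closedBall h))
      · have hW'c := (hT W' (Finset.mem_insert_of_mem hW')).1
        have hne' : W ≠ W' := by
          rintro rfl
          exact hWT hW'
        exact disjoint_left.1 (comps_disj Γ hW hW'c hne') hxW
          (heW W' hW'c (image_mono ball_subset_closedBall h))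
    have hEq : A \ e W '' ball 0 1 =
        (e W0 '' ball 0 1 ∪ ⋃ W' ∈ insert W T, e W' '' ball 0 1)ᶜ := by
      rw [hA, Finset.set_biUnion_insert]
      ext x
      simp only [Set.mem_sdiff, mem_compl_iff, mem_union]
      tauto
    obtain ⟨s1, s2⟩ := h1_step hAc (he W hW) hsub i1
    rw [hEq] at s1 s2
    refine ⟨s1, s2.trans ?_⟩
    rw [Finset.card_insert_of_notMem hWT]
    omega

theorem h1_discs (hM : Surf M) (Γ : Gr M) (hf : Γ.comps.Finite) (e : Set M → ℂ → M)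
    (he : ∀ W ∈ Γ.comps, IsOpenEmbedding (e W)) (heW : ∀ W ∈ Γ.comps, e W '' closedBall 0 1 ⊆ W)
    {W0 : Set M} (h0 : W0 ∈ Γ.comps) :
    Module.Finite (ZMod 2) (Hc ((⋃ W ∈ Γ.comps, e W '' ball 0 1)ᶜ : Set M)) ∧
      h1 ((⋃ W ∈ Γ.comps, e W '' ball 0 1)ᶜ : Set M) + 1 ≤
        h1 ((e W0 '' ball 0 1)ᶜ : Set M) + Γ.comps.ncard := by
  classical
  have hT : ∀ W ∈ hf.toFinset.erase W0, W ∈ Γ.comps ∧ W ≠ W0 := by
    intro W hW
    rw [Finset.mem_erase, Set.Finite.mem_toFinset] at hW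
    exact ⟨hW.2, hW.1⟩
  obtain ⟨i1, i2⟩ := euler_ind hM Γ e he heW h0 (hf.toFinset.erase W0) hT
  have hEq : (e W0 '' ball 0 1 ∪ ⋃ W ∈ hf.toFinset.erase W0, e W '' ball 0 1) =
      ⋃ W ∈ Γ.comps, e W '' ball 0 1 := by
    ext x
    simp only [mem_union, mem_iUnion, exists_prop, Finset.mem_erase, Set.Finite.mem_toFinset]
    constructor
    · rintro (h | ⟨W, ⟨_, hW⟩, h⟩)
      · exact ⟨W0, h0, h⟩
      · exact ⟨W, hW, h⟩
    · rintro ⟨W, hW, h⟩
      by_cases h3 : W = W0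
      · subst h3
        exact Or.inl h
      · exact Or.inr ⟨W, ⟨h3, hW⟩, h⟩
  rw [hEq] at i1 i2
  refine ⟨i1, ?_⟩
  have hmem : W0 ∈ hf.toFinset := by
    rw [Set.Finite.mem_toFinset]
    exact h0
  have hc : (hf.toFinset.erase W0).card + 1 = Γ.comps.ncard := by
    rw [Finset.card_erase_add_one hmem, Set.ncard_eq_toFinset_card _ hf]
  omega

/-- Euler inequality -/
theorem euler [PreconnectedSpace M] (hM : Surf M) (Γ : Gr M) {e : ℂ → M} (he : IsOpenEmbedding e) :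
    Nat.card Γ.ι + 2 ≤ Nat.card Γ.κ + h1 ((e '' ball 0 1)ᶜ : Set M) + Γ.comps.ncard := by
  have hf := comps_finite hM Γ
  obtain ⟨W0, hW0⟩ := comps_nonempty hM Γ
  obtain ⟨f, hfe, hfW⟩ := exists_discs hM Γ
  obtain ⟨i1, i2⟩ := h1_discs hM Γ hf f hfe hfW hW0
  set N : Set M := (⋃ W ∈ Γ.comps, f W '' ball 0 1)ᶜ with hN
  have hsub : Γ.set ⊆ N := by
    intro x hx
    rw [hN]
    simp only [mem_compl_iff, mem_iUnion, exists_prop, not_exists, not_and]
    intro W hW h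
    exact disjoint_left.1 (comp_disj_set Γ hW) (hfW W hW (image_mono ball_subset_closedBall h)) hx
  have hsurj : Function.Surjective (res hsub) :=
    res_surj hsub fun g hg => ext_N hM Γ hf f hfe hfW hg
  have hfin : Module.Finite (ZMod 2) (Hc Γ.set) := Module.Finite.of_surjective _ hsurj
  have hle : h1 Γ.set ≤ h1 N := LinearMap.finrank_le_finrank_of_surjective hsurj
  have hc := card_le Γ hfin
  have hk : h1 ((f W0 '' ball 0 1)ᶜ : Set M) = h1 ((e '' ball 0 1)ᶜ : Set M) :=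
    h1_const hM (hfe W0 hW0) he
  omega

end Pool.Agent.H94.PQ
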