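import Pool.Agent.H94.PQ.ArcU
import Pool.Agent.H61.PQ.Defs

/-!
# PQV-5: basic facts on graphs

`closedσ`: arcs are compact (`IsArc.compact`), `M` is Hausdorff.  `sub_closed`: finite union (`Γ.fι`; `Set.Finite.isClosed_biUnion`, `Set.toFinite`).  `op_preconn`, `op_nonempty`, `σ_sub_closure_op` : from `tau_preconn`, `tau_nonempty`, `sub_closure_tau`.
`op_disj`: for `i ≠ j`: `Γ.op i ∩ Γ.σ j = ∅` (a common point is a vertex `pt k` by `disj`, `k = s i` or `t i` by `vert`, but `op i` misses both ends).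
`op_pt`: `pt k ∉ Γ.op i` (`vert`).
`sub_arcPt`: for `i ∈ S`, `y ∈ Γ.op i`: `sub Γ S = sub Γ (S \ {i}) ∪ Γ.σ i`, the first set is closed and its intersection with `Γ.σ i` is in `{pt (s i), pt (t i)}` (`sub_inter`), so
`arc_union_pt` applies.  `set_arcPt`: `Γ.set = sub Γ univ`.
-/

namespace Pool.Agent.H94.PQ

open Set Filter Topology Metric Pool.Agent.H61.PO

section
variable {M : Type*} [TopologicalSpace M]

/-- the union of the closed edges in `S` -/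
def sub (Γ : Gr M) (S : Set Γ.ι) : Set M := ⋃ i ∈ S, Γ.σ i

theorem sub_univ (Γ : Gr M) : sub Γ univ = Γ.set := by
  simp [sub, Gr.set]

theorem sub_insert (Γ : Gr M) (S : Set Γ.ι) (i : Γ.ι) : sub Γ (insert i S) = sub Γ S ∪ Γ.σ i := by
  unfold sub
  rw [biUnion_insert, union_comm]

theorem sub_empty (Γ : Gr M) : sub Γ ∅ = ∅ := by
  simp [sub]

theorem sub_subset (Γ : Gr M) (S : Set Γ.ι) : sub Γ S ⊆ Γ.set := by
  intro x hx
  simp only [sub, mem_iUnion] at hx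
  obtain ⟨i, _, hi⟩ := hx
  exact mem_iUnion.2 ⟨i, hi⟩

theorem op_pt (Γ : Gr M) (i : Γ.ι) (k : Γ.κ) : Γ.pt k ∉ Γ.op i := by
  rintro ⟨h1, h2⟩
  apply h2
  rcases Γ.vert i k h1 with rfl | rfl
  · exact Or.inl rfl
  · exact Or.inr rfl

theorem op_disj (Γ : Gr M) {i j : Γ.ι} (h : i ≠ j) : Γ.op i ∩ Γ.σ j = ∅ := by
  ext x
  constructor
  · rintro ⟨h1, h2⟩
    obtain ⟨k, rfl⟩ := Γ.disj i j h ⟨h1.1, h2⟩
    exact op_pt Γ i k h1
  · intro h
    exact h.elim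

theorem mem_σ (Γ : Gr M) (i : Γ.ι) {x : M} (hx : x ∈ Γ.σ i) :
    x ∈ Γ.op i ∨ x = Γ.pt (Γ.s i) ∨ x = Γ.pt (Γ.t i) := by
  by_cases h1 : x = Γ.pt (Γ.s i)
  · exact Or.inr (Or.inl h1)
  by_cases h2 : x = Γ.pt (Γ.t i)
  · exact Or.inr (Or.inr h2)
  refine Or.inl ⟨hx, ?_⟩
  rintro (h | h)
  · exact h1 h
  · exact h2 h

/-- the intersection of a union of edges with another edge -/
theorem sub_inter (Γ : Gr M) {S : Set Γ.ι} {i : Γ.ι} (hi : i ∉ S) {x : M}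
    (hx : x ∈ sub Γ S ∩ Γ.σ i) : ∃ k, x = Γ.pt k ∧ (k = Γ.s i ∨ k = Γ.t i) ∧
      ∃ j ∈ S, k = Γ.s j ∨ k = Γ.t j := by
  obtain ⟨h1, h2⟩ := hx
  simp only [sub, mem_iUnion] at h1
  obtain ⟨j, hj, hxj⟩ := h1
  have hij : i ≠ j := by
    rintro rfl
    exact hi hj
  obtain ⟨k, rfl⟩ := Γ.disj i j hij ⟨h2, hxj⟩
  exact ⟨k, rfl, Γ.vert i k h2, j, hj, Γ.vert j k hxj⟩

end

section
variable {M : Type*} [MetricSpace M]

theorem closedσ (Γ : Gr M) (i : Γ.ι) : IsClosed (Γ.σ i) := by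
  exact (Γ.arc i).compact.isClosed

theorem sub_closed (Γ : Gr M) (S : Set Γ.ι) : IsClosed (sub Γ S) := by
  have := Γ.fι
  exact (Set.toFinite S).isClosed_biUnion fun i _ => closedσ Γ i

theorem set_closed (Γ : Gr M) : IsClosed Γ.set := by
  rw [← sub_univ]
  exact sub_closed Γ univ

theorem op_preconn (Γ : Gr M) (i : Γ.ι) : IsPreconnected (Γ.op i) := by
  exact tau_preconn (Γ.arc i)

theorem op_nonempty (Γ : Gr M) (i : Γ.ι) : (Γ.op i).Nonempty := by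
  exact tau_nonempty (Γ.arc i)

theorem σ_sub_closure_op (Γ : Gr M) (i : Γ.ι) : Γ.σ i ⊆ closure (Γ.op i) := by
  exact sub_closure_tau (Γ.arc i)

theorem sub_arcPt (Γ : Gr M) {S : Set Γ.ι} {i : Γ.ι} (hi : i ∈ S) {y : M} (hy : y ∈ Γ.op i) :
    ArcPt (sub Γ S) y := by
  have h1 : insert i (S \ {i}) = S := by
    ext j
    constructor
    · rintro (rfl | h)
      · exact hi
      · exact h.1
    · intro h
      by_cases hj : j = i
      · exact Or.inl hj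
      · exact Or.inr ⟨h, hj⟩
  rw [← h1, sub_insert]
  have hiS : i ∉ S \ {i} := fun h => h.2 rfl
  refine arc_union_pt (sub_closed Γ _) (Γ.arc i) ?_ hy.1 (fun h => hy.2 (Or.inl h))
    (fun h => hy.2 (Or.inr h))
  intro x hx
  obtain ⟨k, rfl, hk, -⟩ := sub_inter Γ hiS hx
  rcases hk with rfl | rfl
  · exact Or.inl rfl
  · exact Or.inr rfl

theorem set_arcPt (Γ : Gr M) {i : Γ.ι} {y : M} (hy : y ∈ Γ.op i) : ArcPt Γ.set y := by
  rw [← sub_univ]
  exact sub_arcPt Γ (mem_univ i) hy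

end

end Pool.Agent.H94.PQ
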