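import Pool.Agent.H94.PQ.Ga
import Pool.Agent.H61.PO.LocalB

/-!
# PQV-6: basic facts on components

Components: `W = connectedComponentIn (Γ.set)ᶜ w`, `w ∉ Γ.set`: open (`comp_isOpen`), preconnected, nonempty, `closure W ⊆ W ∪ Γ.set` (`comp_closure`), `W ∩ Γ.set = ∅`.
`comps_disj`: two different components are disjoint (`connectedComponentIn_eq`).  `mem_comps`: for `w ∉ Γ.set` there is a component which contains `w`.
`adj_sub`: `adj_const` with `τ = Γ.op i`, then closure (`σ_sub_closure_op`).  `adj_three`: `adj_two` at a point of `Γ.op i` (which is in all three closures by `adj_sub`).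
`exists_adj`: for each edge `i` there is a component `W` adjacent to `i`: `free_arc` (`Pool/Agent/H61/PO/Local.lean`) at `y ∈ Γ.op i` gives `a ∉ Γ.set` with `y ∈ closure (connectedComponentIn (Γ.set)ᶜ a)` (the point `y` itself is in `U ∩ Γ.set`).
`comps_nonempty`: `Γ` has an edge (`four`); `exists_adj`.
-/

namespace Pool.Agent.H94.PQ

open Set Filter Topology Metric Pool.Agent.H61.PO

variable {M : Type*} [MetricSpace M]

variable (hM : Surf M) (Γ : Gr M)
include hM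

theorem comp_open {W : Set M} (hW : W ∈ Γ.comps) : IsOpen W := by
  obtain ⟨w, _, rfl⟩ := hW
  exact comp_isOpen hM (set_closed Γ) w

omit hM in
theorem comp_preconn {W : Set M} (hW : W ∈ Γ.comps) : IsPreconnected W := by
  obtain ⟨w, _, rfl⟩ := hW
  exact isPreconnected_connectedComponentIn

omit hM in
theorem comp_nonempty {W : Set M} (hW : W ∈ Γ.comps) : W.Nonempty := by
  obtain ⟨w, hw, rfl⟩ := hW
  exact ⟨w, mem_connectedComponentIn hw⟩

omit hM in
theorem comp_disj_set {W : Set M} (hW : W ∈ Γ.comps) : Disjoint W Γ.set := by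
  obtain ⟨w, _, rfl⟩ := hW
  rw [disjoint_left]
  intro z hz
  exact connectedComponentIn_subset _ _ hz

theorem comp_clos_sub {W : Set M} (hW : W ∈ Γ.comps) : closure W ⊆ W ∪ Γ.set := by
  obtain ⟨w, _, rfl⟩ := hW
  exact comp_closure hM (set_closed Γ) w

omit hM in
theorem comps_disj {W W' : Set M} (hW : W ∈ Γ.comps) (hW' : W' ∈ Γ.comps) (h : W ≠ W') :
    Disjoint W W' := by
  obtain ⟨w, _, rfl⟩ := hW
  obtain ⟨w', _, rfl⟩ := hW'
  rw [disjoint_left]
  intro z hz hz'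
  exact h ((connectedComponentIn_eq hz).trans (connectedComponentIn_eq hz').symm)

omit hM in
theorem mem_comps {w : M} (hw : w ∉ Γ.set) : ∃ W ∈ Γ.comps, w ∈ W := by
  exact ⟨_, ⟨w, hw, rfl⟩, mem_connectedComponentIn hw⟩

theorem adj_sub {W : Set M} (hW : W ∈ Γ.comps) {i : Γ.ι} (h : Γ.Adj W i) :
    Γ.σ i ⊆ closure W := by
  obtain ⟨w, _, rfl⟩ := hW
  have h1 : Γ.op i ⊆ Γ.set := fun y hy => mem_iUnion.2 ⟨i, hy.1⟩
  have h2 := adj_const hM (set_closed Γ) h1 (op_preconn Γ i) (fun y hy => set_arcPt Γ hy) h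
  exact (σ_sub_closure_op Γ i).trans (closure_minimal h2 isClosed_closure)

theorem adj_three {W1 W2 W3 : Set M} (h1 : W1 ∈ Γ.comps) (h2 : W2 ∈ Γ.comps) (h3 : W3 ∈ Γ.comps)
    {i : Γ.ι} (a1 : Γ.Adj W1 i) (a2 : Γ.Adj W2 i) (a3 : Γ.Adj W3 i) :
    W1 = W2 ∨ W1 = W3 ∨ W2 = W3 := by
  obtain ⟨y, hy⟩ := op_nonempty Γ i
  have e1 := adj_sub hM Γ h1 a1 hy.1
  have e2 := adj_sub hM Γ h2 a2 hy.1
  have e3 := adj_sub hM Γ h3 a3 hy.1
  obtain ⟨w1, _, rfl⟩ := h1
  obtain ⟨w2, _, rfl⟩ := h2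
  obtain ⟨w3, _, rfl⟩ := h3
  rcases adj_two hM (set_closed Γ) (set_arcPt Γ hy) e1 e2 e3 with h | h | h
  · exact Or.inl (connectedComponentIn_eq h)
  · exact Or.inr (Or.inl (connectedComponentIn_eq h))
  · exact Or.inr (Or.inr (connectedComponentIn_eq h))

theorem exists_adj (i : Γ.ι) : ∃ W ∈ Γ.comps, Γ.Adj W i := by
  obtain ⟨y, hy⟩ := op_nonempty Γ i
  obtain ⟨U, a, b, _, hyU, ha, _, _, h2⟩ := free_arc hM (set_closed Γ) (set_arcPt Γ hy)
  exact ⟨_, ⟨a, ha, rfl⟩, y, (h2 y ⟨hyU, mem_iUnion.2 ⟨i, hy.1⟩⟩).1, hy⟩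

theorem comps_nonempty : Γ.comps.Nonempty := by
  have h4 := Γ.four
  obtain ⟨i⟩ : Nonempty Γ.ι := by
    by_contra hne
    rw [not_nonempty_iff] at hne
    rw [Nat.card_of_isEmpty] at h4
    omega
  obtain ⟨W, hW, _⟩ := exists_adj hM Γ i
  exact ⟨W, hW⟩

end Pool.Agent.H94.PQ
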