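import Pool.Agent.H61.PO.Disconn
import Pool.Agent.H61.PO.Glue
import Pool.Agent.H61.PO.Coc
import Pool.Agent.H61.PO.Discs

/-!
# PQU-1: a class which vanishes outside a large disc vanishes outside a smaller disc

`A = (e0 '' ball 0 1)ᶜ ⊆ B = (e '' ball 0 1)ᶜ`.
 Injective: `Coc B g`, `Cob A g`.  `C = e0 '' closedBall 0 1` is closed (compact).  `Y = closedBall 0 1 \ e0 ⁻¹' (e '' ball 0 1)` is compact, `sphere 0 1 ⊆ Y ⊆ closedBall 0 1` (`e '' ball 0 1 ⊆ e0 '' ball 0 1`,
 `e0` injective, so the sphere is not hit).  `g0 a b = g (e0 a) (e0 b)`: `Coc Y g0` (`Coc.pullback`), `Cob (sphere 0 1) g0` (`Cob.pullback`, `e0 '' sphere ⊆ A`).  `ball 0 1 \ Y = e0 ⁻¹' (e '' ball 0 1)` is the image of `ball 0 1`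
 under `e0⁻¹ ∘ e`, so preconnected (`e '' ball 0 1` is preconnected and contained in `range e0`: `IsOpenEmbedding.isInducing` + `IsPreconnected.preimage_of_isOpenMap`, or
 `IsInducing.isPreconnected_image`: `e0 '' (e0 ⁻¹' S) = S`).  By `disconn` (`R = 1`): `Cob Y g0`.  Push forward: `Cob (e0 '' Y) g` (`Cob.pullback` along the inverse of `e0`, which is continuous on
 `range e0` (`he0.toOpenPartialHomeomorph`, or as in `ext_circle` of `Pool/Agent/H61/PO/Ext.lean`), and `Cob.of_eqOn`).  `e0 '' Y = C \ e '' ball 0 1` is closed, `A` is closed, `A ∪ e0 '' Y = B`, `A ∩ e0 '' Y = e0 '' sphere 0 1` is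
 preconnected: `glueCob_conn`.
-/

namespace Pool.Agent.H94.PQ

open Set Filter Topology Metric Pool.Agent.H61.PO

variable {M : Type*} [MetricSpace M] [CompactSpace M]

theorem inj_of_sub {e e0 : ℂ → M} (he : IsOpenEmbedding e) (he0 : IsOpenEmbedding e0)
    (h : e '' closedBall 0 1 ⊆ e0 '' ball 0 1) {g : M → M → ZMod 2}
    (hg : Coc ((e '' ball 0 1)ᶜ : Set M) g) (hA : Cob ((e0 '' ball 0 1)ᶜ : Set M) g) :
    Cob ((e '' ball 0 1)ᶜ : Set M) g := by
  have hopen : IsOpen (e '' ball 0 1) := he.isOpenMap _ isOpen_ball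
  have hsub : e '' ball 0 1 ⊆ e0 '' ball 0 1 := (image_mono ball_subset_closedBall).trans h
  obtain ⟨Y, hY⟩ : ∃ Y : Set ℂ, Y = closedBall 0 1 \ e0 ⁻¹' (e '' ball 0 1) := ⟨_, rfl⟩
  have hYc : IsCompact Y := by
    rw [hY]
    exact (isCompact_closedBall 0 1).diff (hopen.preimage he0.continuous)
  have hball : ∀ z, e0 z ∈ e0 '' ball 0 1 → z ∈ ball (0 : ℂ) 1 := by
    rintro z ⟨w, hw, hwz⟩
    rw [← he0.injective hwz]
    exact hw
  have hS : sphere (0 : ℂ) 1 ⊆ Y := by
    intro z hz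
    rw [hY]
    refine ⟨sphere_subset_closedBall hz, fun h1 => ?_⟩
    have h2 := hball z (hsub h1)
    rw [mem_ball] at h2
    rw [mem_sphere] at hz
    exact absurd hz h2.ne
  have hYR : Y ⊆ closedBall 0 1 := by
    rw [hY]
    exact sdiff_subset
  have hmY : MapsTo e0 Y ((e '' ball 0 1)ᶜ : Set M) := by
    intro z hz
    rw [hY] at hz
    exact hz.2
  have hgY : Coc Y (fun a b => g (e0 a) (e0 b)) :=
    hg.pullback he0.continuous.continuousOn hmY
  have hgS : Cob (sphere (0 : ℂ) 1) (fun a b => g (e0 a) (e0 b)) := by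
    refine hA.pullback he0.continuous.continuousOn ?_
    intro z hz h1
    have h2 := hball z h1
    rw [mem_ball] at h2
    rw [mem_sphere] at hz
    exact absurd hz h2.ne
  have hcompl : ball (0 : ℂ) 1 \ Y = e0 ⁻¹' (e '' ball 0 1) := by
    ext z
    constructor
    · rintro ⟨h1, h2⟩
      by_contra h3
      apply h2
      rw [hY]
      exact ⟨ball_subset_closedBall h1, h3⟩
    · intro h1
      refine ⟨hball z (hsub h1), fun h2 => ?_⟩
      rw [hY] at h2
      exact h2.2 h1
  have hpre : IsPreconnected (ball (0 : ℂ) 1 \ Y) := by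
    rw [hcompl]
    refine IsPreconnected.preimage_of_isOpenMap ?_ he0.injective he0.isOpenMap
      (hsub.trans (image_subset_range _ _))
    exact (convex_ball (0 : ℂ) 1).isPreconnected.image e he.continuous.continuousOn
  have hYcob : Cob Y (fun a b => g (e0 a) (e0 b)) := by
    by_contra hn
    exact disconn hYc one_pos hS hYR hgY hgS hn hpre
  -- push forward
  obtain ⟨p, hp⟩ : ∃ p : OpenPartialHomeomorph ℂ M, p = he0.toOpenPartialHomeomorph := ⟨_, rfl⟩
  have hpe : ∀ z, p.symm (e0 z) = z := by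
    intro z
    have h1 := p.left_inv (x := z) (by rw [hp]; exact mem_univ z)
    rw [hp] at h1 ⊢
    exact h1
  have hcont : ContinuousOn p.symm (e0 '' Y) := by
    refine p.continuousOn_symm.mono ?_
    rintro x ⟨z, hz, rfl⟩
    have h1 := p.map_source (x := z) (by rw [hp]; exact mem_univ z)
    rw [hp] at h1 ⊢
    exact h1
  have hgY2 : Cob (e0 '' Y) g := by
    have h1 : Cob (e0 '' Y) (fun a b => g (e0 (p.symm a)) (e0 (p.symm b))) := by
      refine hYcob.pullback hcont ?_
      rintro x ⟨z, hz, rfl⟩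
      rw [hpe]
      exact hz
    refine h1.of_eqOn ?_
    rintro a ⟨z, hz, rfl⟩ b ⟨w, hw, rfl⟩
    simp only [hpe]
  have hAcl : IsClosed ((e0 '' ball 0 1)ᶜ : Set M) :=
    (he0.isOpenMap _ isOpen_ball).isClosed_compl
  have hYcl : IsClosed (e0 '' Y) := (hYc.image he0.continuous).isClosed
  have hU : (e0 '' ball 0 1)ᶜ ∪ e0 '' Y = ((e '' ball 0 1)ᶜ : Set M) := by
    ext x
    constructor
    · rintro (h1 | ⟨z, hz, rfl⟩)
      · exact fun h2 => h1 (hsub h2)
      · exact hmY hz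
    · intro h1
      by_cases h2 : x ∈ e0 '' ball 0 1
      · right
        obtain ⟨z, hz, rfl⟩ := h2
        refine ⟨z, ?_, rfl⟩
        rw [hY]
        exact ⟨ball_subset_closedBall hz, h1⟩
      · exact Or.inl h2
  have hI : ((e0 '' ball 0 1)ᶜ : Set M) ∩ e0 '' Y = e0 '' sphere 0 1 := by
    ext x
    constructor
    · rintro ⟨h1, ⟨z, hz, rfl⟩⟩
      refine ⟨z, ?_, rfl⟩
      have h2 := hYR hz
      rw [mem_closedBall] at h2
      rw [mem_sphere]
      refine le_antisymm h2 ?_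
      by_contra h3
      push Not at h3
      exact h1 ⟨z, mem_ball.2 h3, rfl⟩
    · rintro ⟨z, hz, rfl⟩
      refine ⟨fun h1 => ?_, ⟨z, hS hz, rfl⟩⟩
      have h2 := hball z h1
      rw [mem_ball] at h2
      rw [mem_sphere] at hz
      exact absurd hz h2.ne
  have hIp : IsPreconnected (((e0 '' ball 0 1)ᶜ : Set M) ∩ e0 '' Y) := by
    rw [hI]
    refine IsPreconnected.image ?_ e0 he0.continuous.continuousOn
    refine isPreconnected_sphere ?_ 0 1
    rw [Complex.rank_real_complex]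
    exact Nat.one_lt_ofNat
  rw [← hU] at hg ⊢
  exact glueCob_conn hAcl hYcl hg hA hgY2 hIp

end Pool.Agent.H94.PQ
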