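import Pool.Agent.H94.PQ.Res
import Pool.Agent.H94.PQ.HInj
import Pool.Agent.H61.PO.FinB
import Pool.Agent.H61.PO.Ext
import Pool.Agent.H61.PO.Discs

/-!
# PQU-2: the first cohomology of the complement of a disc: finite, independent of the disc

`hc_finite`: `fin_disc hM` gives `N` and, for `e`, a map `data` to `Fin N`; choose a representative of every class (`exists_rep`); `x ↦ data (representative of x)` is injective
by `cls_eq_iff` (`data g = data g' → Cob (g + g')`); `Finite.of_injective`.
`h1_eq_of_sub`: `A = (e0 '' ball 0 1)ᶜ ⊆ B = (e '' ball 0 1)ᶜ`; the restriction `res : Hc B → Hc A` is bijective (`res_inj`, `res_surj`; then `LinearEquiv.ofBijective`, `LinearEquiv.finrank_eq`).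
 Injective: `inj_of_sub`.
 Surjective: `ext_main hM` with `Z = univ`, `U = e0 '' ball 0 1` (open, preconnected), the disc `e` (`h`); `univ \ U = A`, `univ \ e '' ball 0 1 = B`.
-/

namespace Pool.Agent.H94.PQ

open Set Filter Topology Metric Pool.Agent.H61.PO

variable {M : Type*} [MetricSpace M] [CompactSpace M]

theorem hc_finite (hM : Surf M) {e : ℂ → M} (he : IsOpenEmbedding e) :
    Finite (Hc ((e '' ball 0 1)ᶜ : Set M)) := by
  obtain ⟨N, hN⟩ := fin_disc hM
  obtain ⟨data, hd⟩ := hN e he
  choose rep hrep hcls using fun x : Hc ((e '' ball 0 1)ᶜ : Set M) => exists_rep x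
  refine Finite.of_injective (fun x => data (rep x)) ?_
  intro x y hxy
  have h := hd (rep x) (rep y) (hrep x) (hrep y) hxy
  rw [hcls x, hcls y]
  exact cls_eq_iff.2 h

theorem h1_eq_of_sub (hM : Surf M) {e e0 : ℂ → M} (he : IsOpenEmbedding e)
    (he0 : IsOpenEmbedding e0) (h : e '' closedBall 0 1 ⊆ e0 '' ball 0 1) :
    h1 ((e '' ball 0 1)ᶜ : Set M) = h1 ((e0 '' ball 0 1)ᶜ : Set M) := by
  have hsub : ((e0 '' ball 0 1)ᶜ : Set M) ⊆ (e '' ball 0 1)ᶜ :=
    compl_subset_compl.2 ((image_mono ball_subset_closedBall).trans h)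
  have hinj : Function.Injective (res hsub) :=
    res_inj hsub fun g hg hA => inj_of_sub he he0 h hg hA
  have hsurj : Function.Surjective (res hsub) := by
    refine res_surj hsub fun g hg => ?_
    have hg' : Coc ((univ : Set M) \ e0 '' ball 0 1) g := by
      rw [← compl_eq_univ_sdiff]
      exact hg
    have hpc : IsPreconnected (e0 '' ball (0 : ℂ) 1) :=
      ((convex_ball (0 : ℂ) 1).isPreconnected).image _ he0.continuous.continuousOn
    obtain ⟨g', h1, h2⟩ := ext_main hM isCompact_univ (he0.isOpenMap _ isOpen_ball)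
      (subset_univ _) hpc he h hg'
    rw [← compl_eq_univ_sdiff] at h1 h2
    exact ⟨g', h1, h2⟩
  exact (LinearEquiv.ofBijective (res hsub) ⟨hinj, hsurj⟩).finrank_eq

end Pool.Agent.H94.PQ
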