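import Pool.Agent.H61.PQ.Defs
import Pool.Agent.H61.PO.Coc

/-!
# Pohl's problem Q2 (MP_beb0a3_gt), parts U, V, W: restriction maps (helper94)

`cls A g hg` is the class of the local cocycle `g` in `Hc A = H^1(A; Z/2)`; `res h : Hc B → Hc A` the restriction map for `A ⊆ B`.
-/

namespace Pool.Agent.H94.PQ

open Set Filter Topology Pool.Agent.H61.PO

section
variable {X : Type*} [TopologicalSpace X]

/-- the class of a local cocycle -/
def cls (A : Set X) (g : X → X → ZMod 2) (hg : Coc A g) : Hc A := Submodule.Quotient.mk ⟨g, hg⟩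

theorem exists_rep {A : Set X} (x : Hc A) : ∃ g, ∃ hg : Coc A g, x = cls A g hg := by
  obtain ⟨⟨g, hg⟩, rfl⟩ := Submodule.Quotient.mk_surjective _ x
  exact ⟨g, hg, rfl⟩

theorem cls_eq_zero_iff {A : Set X} {g : X → X → ZMod 2} {hg : Coc A g} :
    cls A g hg = 0 ↔ Cob A g := by
  unfold cls
  rw [Submodule.Quotient.mk_eq_zero]
  rfl

theorem fun_sub_eq_add (g g' : X → X → ZMod 2) : g - g' = g + g' := by
  funext a b
  simp only [Pi.sub_apply, Pi.add_apply]
  exact CharTwo.sub_eq_add _ _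

theorem cls_eq_iff {A : Set X} {g g' : X → X → ZMod 2} {hg : Coc A g} {hg' : Coc A g'} :
    cls A g hg = cls A g' hg' ↔ Cob A (g + g') := by
  unfold cls
  rw [Submodule.Quotient.eq, ← fun_sub_eq_add]
  rfl

theorem cls_add {A : Set X} {g g' : X → X → ZMod 2} (hg : Coc A g) (hg' : Coc A g') :
    cls A g hg + cls A g' hg' = cls A (g + g') (hg.add hg') := rfl

/-- the restriction map -/
noncomputable def res {A B : Set X} (h : A ⊆ B) : Hc B →ₗ[ZMod 2] Hc A :=
  Submodule.mapQ _ _ (Submodule.inclusion (show Zc B ≤ Zc A from fun _ hg => Coc.mono hg h))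
    (fun _ hg => Cob.mono hg h)

theorem res_cls {A B : Set X} (h : A ⊆ B) {g : X → X → ZMod 2} (hg : Coc B g) :
    res h (cls B g hg) = cls A g (hg.mono h) := rfl

theorem res_inj {A B : Set X} (h : A ⊆ B) (H : ∀ g : X → X → ZMod 2, Coc B g → Cob A g → Cob B g) :
    Function.Injective (res h) := by
  rw [injective_iff_map_eq_zero]
  intro x hx
  obtain ⟨g, hg, rfl⟩ := exists_rep x
  rw [res_cls, cls_eq_zero_iff] at hx
  exact cls_eq_zero_iff.2 (H g hg hx)

theorem res_surj {A B : Set X} (h : A ⊆ B)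
    (H : ∀ g : X → X → ZMod 2, Coc A g → ∃ g' : X → X → ZMod 2, Coc B g' ∧ Cob A (g + g')) :
    Function.Surjective (res h) := by
  intro x
  obtain ⟨g, hg, rfl⟩ := exists_rep x
  obtain ⟨g', hg', hc⟩ := H g hg
  exact ⟨cls B g' hg', by rw [res_cls, cls_eq_iff]; exact hc.symm⟩

end

end Pool.Agent.H94.PQ
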