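import Pool.Agent.H94.PQ.Hol
import Pool.Agent.H94.PQ.Res
import Pool.Agent.H94.PQ.Gb

/-!
# PQW-2: holonomies of the cocycles on a graph

`prim g i`: a primitive of `g` on `Γ.σ i` (`IsArc.triv`, classical choice; for a proof of existence: `g.2.mono`, `Γ.σ i ⊆ Γ.set`).  `hol g i = prim (pt (s i)) + prim (pt (t i))`.
`hol_eq`: another primitive differs by a constant on the preconnected set `Γ.σ i` (`LCob.const`), which cancels in `ZMod 2`.  So `hol` is linear (`LCob.add`; for the scalars `0`, `1` of `ZMod 2` use `hol_eq` with `r • t`).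
`hol_mem_of_cob`: a primitive `s` on `Γ.set` is a primitive on every edge: `hol g = cut (s ∘ pt)`.
`hol_surj`: for each edge `i` `cross_hol` with `A = sub Γ {i}ᶜ` (closed; `A ∩ σ i ⊆ {pt (s i), pt (t i)}` by `sub_inter`; `A ∪ Γ.σ i = Γ.set`) gives `g` with `hol g i = 1`, `hol g j = 0` for `j ≠ i` (primitive `0` on `Γ.σ j ⊆ A`), so `hol g = Pi.single i 1`;
these span (`Pi.basisFun`/`LinearMap.range_eq_top` with `Submodule.span`, or write `S = ∑ i, S i • Pi.single i 1` and use `map_sum`).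
-/

namespace Pool.Agent.H94.PQ

open Set Filter Topology Pool.Agent.H61.PO

/-- the coboundary map of the graph -/
def cut {M : Type*} [TopologicalSpace M] (Γ : Gr M) :
    (Γ.κ → ZMod 2) →ₗ[ZMod 2] (Γ.ι → ZMod 2) where
  toFun u i := u (Γ.s i) + u (Γ.t i)
  map_add' u v := by
    funext i
    simp only [Pi.add_apply]
    ring
  map_smul' r u := by
    funext i
    simp only [Pi.smul_apply, smul_eq_mul, RingHom.id_apply]
    ring

variable {M : Type*} [MetricSpace M]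

theorem exists_prim (Γ : Gr M) {g : M → M → ZMod 2} (hg : Coc Γ.set g) (i : Γ.ι) :
    ∃ t : M → ZMod 2, LCob (Γ.σ i) g t :=
  (Γ.arc i).triv g (hg.mono (subset_iUnion Γ.σ i))

open Classical in
/-- the holonomy of `g` along the edge `i` (only meaningful for local cocycles on `Γ.set`) -/
noncomputable def hol0 (Γ : Gr M) (g : M → M → ZMod 2) (i : Γ.ι) : ZMod 2 :=
  if h : ∃ t : M → ZMod 2, LCob (Γ.σ i) g t then
    h.choose (Γ.pt (Γ.s i)) + h.choose (Γ.pt (Γ.t i)) else 0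

theorem hol0_eq (Γ : Gr M) {g : M → M → ZMod 2} {i : Γ.ι} {t : M → ZMod 2}
    (ht : LCob (Γ.σ i) g t) : hol0 Γ g i = t (Γ.pt (Γ.s i)) + t (Γ.pt (Γ.t i)) := by
  have h : ∃ t : M → ZMod 2, LCob (Γ.σ i) g t := ⟨t, ht⟩
  have e : hol0 Γ g i = h.choose (Γ.pt (Γ.s i)) + h.choose (Γ.pt (Γ.t i)) := by
    unfold hol0
    rw [dif_pos h]
  rw [e]
  obtain ⟨c, hc⟩ := LCob.const h.choose_spec ht (Γ.arc i).preconn
  have h1 := hc _ (Γ.arc i).mem.1
  have h2 := hc _ (Γ.arc i).mem.2.1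
  have key : ∀ a b a' b' c : ZMod 2, a + a' = c → b + b' = c → a + b = a' + b' := by decide
  exact key _ _ _ _ _ h1 h2

theorem hol0_add (Γ : Gr M) {g g' : M → M → ZMod 2} (hg : Coc Γ.set g) (hg' : Coc Γ.set g')
    (i : Γ.ι) : hol0 Γ (g + g') i = hol0 Γ g i + hol0 Γ g' i := by
  obtain ⟨t, ht⟩ := exists_prim Γ hg i
  obtain ⟨t', ht'⟩ := exists_prim Γ hg' i
  rw [hol0_eq Γ ht, hol0_eq Γ ht', hol0_eq Γ (ht.add ht')]
  simp only [Pi.add_apply]
  ring

/-- the holonomy map -/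
noncomputable def hol (Γ : Gr M) : Zc Γ.set →ₗ[ZMod 2] (Γ.ι → ZMod 2) where
  toFun g i := hol0 Γ g.1 i
  map_add' g g' := by
    funext i
    exact hol0_add Γ g.2 g'.2 i
  map_smul' r g := by
    funext i
    obtain ⟨t, ht⟩ := exists_prim Γ g.2 i
    have ht' : LCob (Γ.σ i) (r • g.1) (r • t) := by
      intro x hx
      obtain ⟨U, hU, h⟩ := ht x hx
      refine ⟨U, hU, fun a ha b hb => ?_⟩
      simp only [Pi.smul_apply, smul_eq_mul]
      rw [h a ha b hb]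
      ring
    have e1 : hol0 Γ (r • g.1) i = _ := hol0_eq Γ ht'
    have e2 : hol0 Γ g.1 i = _ := hol0_eq Γ ht
    simp only [Submodule.coe_smul, RingHom.id_apply, Pi.smul_apply, smul_eq_mul] at e1 ⊢
    rw [e1, e2]
    ring

theorem hol_eq (Γ : Gr M) (g : Zc Γ.set) {i : Γ.ι} {t : M → ZMod 2}
    (ht : LCob (Γ.σ i) g.1 t) : hol Γ g i = t (Γ.pt (Γ.s i)) + t (Γ.pt (Γ.t i)) :=
  hol0_eq Γ ht

theorem hol_mem_of_cob (Γ : Gr M) (g : Zc Γ.set) (h : Cob Γ.set g.1) :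
    hol Γ g ∈ LinearMap.range (cut Γ) := by
  obtain ⟨s, hs⟩ := h
  refine ⟨fun k => s (Γ.pt k), ?_⟩
  funext i
  rw [hol_eq Γ g (hs.mono (subset_iUnion Γ.σ i))]
  rfl

private theorem hol_single (Γ : Gr M) [DecidableEq Γ.ι] (i : Γ.ι) :
    ∃ g : Zc Γ.set, hol Γ g = Pi.single i 1 := by
  have hsub : sub Γ {i}ᶜ ∩ Γ.σ i ⊆ {Γ.pt (Γ.s i), Γ.pt (Γ.t i)} := by
    intro x hx
    obtain ⟨k, rfl, hk, -⟩ := sub_inter Γ (show i ∉ ({i}ᶜ : Set Γ.ι) by simp) hx
    rcases hk with rfl | rfl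
    · exact Or.inl rfl
    · exact Or.inr rfl
  obtain ⟨g, t, hg, h0, ht, hp, hq⟩ := cross_hol (sub_closed Γ {i}ᶜ) (Γ.arc i) hsub
  have hset : sub Γ {i}ᶜ ∪ Γ.σ i = Γ.set := by
    rw [← sub_insert, ← sub_univ]
    congr 1
    ext j
    by_cases hj : j = i <;> simp [hj]
  rw [hset] at hg
  refine ⟨⟨g, hg⟩, ?_⟩
  funext j
  by_cases hj : j = i
  · subst hj
    rw [hol_eq Γ ⟨g, hg⟩ ht, hp, hq, Pi.single_eq_same]
    simp
  · have hjs : Γ.σ j ⊆ sub Γ {i}ᶜ := by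
      intro x hx
      exact mem_biUnion (show j ∈ ({i}ᶜ : Set Γ.ι) from hj) hx
    rw [hol_eq Γ ⟨g, hg⟩ (h0.mono hjs), Pi.single_eq_of_ne hj]
    simp

theorem hol_surj (Γ : Gr M) : Function.Surjective (hol Γ) := by
  classical
  have := Γ.fι
  intro S
  choose g hg using hol_single Γ
  refine ⟨∑ i, S i • g i, ?_⟩
  rw [map_sum]
  funext j
  rw [Finset.sum_apply]
  have : ∀ i, (hol Γ (S i • g i)) j = if i = j then S j else 0 := by
    intro i
    rw [map_smul, hg i, Pi.smul_apply, smul_eq_mul]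
    by_cases h : i = j
    · subst h
      simp
    · rw [if_neg h, Pi.single_eq_of_ne (Ne.symm h), mul_zero]
  simp only [this]
  simp

end Pool.Agent.H94.PQ
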