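import Pool.Agent.H94.PQ.Euler

/-!
# Pohl's problem Q2 (MP_beb0a3_gt), parts U, V, W: summary (helper94)

`comp_open` (Gb), `comp_clos` (Clos), `comp_three`, `comp_tri` (Tri), `comps_finite`, `comps_count`, `comps_eq` (Count), `h1_const` (HConst), `hc_finite` (HEq),
`euler` (Euler).  All with explicit `(hM : Surf M) (Γ : Gr M)`.
-/
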