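import Pool.Agent.H94.PQ.EndM
import Pool.Agent.H94.PQ.ArcU
import Pool.Agent.H61.PO.LocalB

/-!
# PQV-4: a pendant arc does not disconnect

`X = X' ∪ σ` is closed, `p ∉ X'` (`X' ∩ σ ⊆ {q}`, `p ≠ q`).  For `w ∉ X` write `W = connectedComponentIn Xᶜ w`: open (`comp_isOpen`), preconnected, `w ∈ W`,
`closure W ⊆ W ∪ X` (`comp_closure`).
(a) If `closure W` meets `σ \ {q}` then `p ∈ closure W`: a point `y` of it is `p`, or `y ∈ σ \ {p,q} =: τ`, and then `τ ⊆ closure W` (`adj_const` with `arc_union_pt`, `tau_preconn`), so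
`p ∈ σ ⊆ closure τ ⊆ closure W` (`sub_closure_tau`).
(b) `closure W` meets `σ \ {q}`.  Otherwise `closure W ⊆ W ∪ X' ∪ {q}` and `p ∉ closure W`.
 (b1) if `q ∉ closure W` or `q ∈ X'` then `closure W ⊆ W ∪ X'`, so `X'ᶜ` is covered by the disjoint open sets `W` and `(closure W)ᶜ`; it meets `W` (in `w`) and
 `(closure W)ᶜ` (in `p`): contradiction to `hc`.
 (b2) `q ∈ closure W`, `q ∉ X'`: then `X' ∩ σ = ∅`; `free_end_arc` at `q` (arc `hσ.symm`, `X' ∩ σ ⊆ {p}`): `U'` open, `q ∈ U'`, all points of `U' \ X` are in one component; `W`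
 meets `U'` (in a point of `W ⊆ Xᶜ`).  `q ∈ closure τ`, so there is `y ∈ τ ∩ U'`.  `free_arc` (`Pool/Agent/H61/PO/Local.lean`) at `y` gives `a ∉ X` with
 `y ∈ closure (connectedComponentIn Xᶜ a)` (take the point `y` of `U ∩ X` itself), so this component meets `U'`: it is `W` (`connectedComponentIn_eq`); so `y ∈ closure W ∩ (σ \ {q})`: contradiction.
(c) So `p ∈ closure W` for every `w ∉ X`; with `U` from `free_end_arc` at `p`: every `W` meets `U`, in points of `U \ X`, so all the `W` are equal.  So `Xᶜ` is preconnected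
(`isPreconnected_of_forall_pair` or: it is empty or equal to one `connectedComponentIn`, `isPreconnected_connectedComponentIn`).
-/

namespace Pool.Agent.H94.PQ

open Set Filter Topology Metric Pool.Agent.H61.PO

variable {M : Type*} [MetricSpace M]

theorem pendant (hM : Surf M) {X' σ : Set M} {p q : M} (hX : IsClosed X')
    (hc : IsPreconnected X'ᶜ) (hσ : IsArc σ p q) (h : X' ∩ σ ⊆ {q}) :
    IsPreconnected (X' ∪ σ)ᶜ := by
  have hσc : IsClosed σ := hσ.compact.isClosed
  have hXc : IsClosed (X' ∪ σ) := hX.union hσc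
  obtain ⟨hpσ, hqσ, hpq⟩ := hσ.mem
  have h2 : X' ∩ σ ⊆ {p, q} := fun z hz => Or.inr (h hz)
  have hpX : p ∉ X' := fun hp => hpq (h ⟨hp, hpσ⟩)
  have hτp : ∀ y ∈ σ \ {p, q}, ArcPt (X' ∪ σ) y := by
    intro y hy
    exact arc_union_pt hX hσ h2 hy.1 (fun e => hy.2 (Or.inl e)) (fun e => hy.2 (Or.inr e))
  have hτX : σ \ {p, q} ⊆ X' ∪ σ := fun y hy => Or.inr hy.1
  -- (a)
  have ha : ∀ w y, y ∈ closure (connectedComponentIn (X' ∪ σ)ᶜ w) → y ∈ σ → y ≠ q →
      p ∈ closure (connectedComponentIn (X' ∪ σ)ᶜ w) := by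
    intro w y hy hyσ hyq
    by_cases hyp : y = p
    · exact hyp ▸ hy
    · have hyτ : y ∈ σ \ {p, q} := ⟨hyσ, by
        rintro (e | e)
        · exact hyp e
        · exact hyq e⟩
      have hsub := adj_const hM hXc hτX (tau_preconn hσ) hτp (w := w) ⟨y, hy, hyτ⟩
      exact closure_minimal hsub isClosed_closure (sub_closure_tau hσ hpσ)
  -- (b)
  have hb : ∀ w, w ∉ X' ∪ σ → ∃ y, y ∈ closure (connectedComponentIn (X' ∪ σ)ᶜ w) ∧ y ∈ σ ∧
      y ≠ q := by
    intro w hw
    by_contra hcon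
    push Not at hcon
    have hwW : w ∈ connectedComponentIn (X' ∪ σ)ᶜ w := mem_connectedComponentIn hw
    by_cases hq : q ∈ closure (connectedComponentIn (X' ∪ σ)ᶜ w) ∧ q ∉ X'
    · obtain ⟨hqW, hqX⟩ := hq
      have h3 : X' ∩ σ ⊆ {p} := by
        intro z hz
        exfalso
        have e : z = q := h hz
        exact hqX (e ▸ hz.1)
      obtain ⟨U, hU, hqU, hUX⟩ := free_end_arc hM hX hσ.symm h3
      obtain ⟨v, hvU, hvW⟩ := mem_closure_iff.1 hqW U hU hqU
      obtain ⟨y, hyU, hyτ⟩ := mem_closure_iff.1 (sub_closure_tau hσ hqσ) U hU hqU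
      obtain ⟨U2, a, b, hU2, hyU2, haX, hbX, hf1, hf2⟩ := free_arc hM hXc (hτp y hyτ)
      have hya := (hf2 y ⟨hyU2, hτX hyτ⟩).1
      obtain ⟨z, hzU, hza⟩ := mem_closure_iff.1 hya U hU hyU
      have hzX : z ∉ X' ∪ σ := connectedComponentIn_subset _ _ hza
      have hvX : v ∉ X' ∪ σ := connectedComponentIn_subset _ _ hvW
      have hzv := hUX v ⟨hvU, hvX⟩ z ⟨hzU, hzX⟩
      have e : connectedComponentIn (X' ∪ σ)ᶜ a = connectedComponentIn (X' ∪ σ)ᶜ w := by
        rw [connectedComponentIn_eq hza, ← connectedComponentIn_eq hzv,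
          ← connectedComponentIn_eq hvW]
      rw [e] at hya
      exact hyτ.2 (Or.inr (hcon y hya hyτ.1))
    · have hsub : closure (connectedComponentIn (X' ∪ σ)ᶜ w) ⊆
          connectedComponentIn (X' ∪ σ)ᶜ w ∪ X' := by
        intro y hy
        rcases comp_closure hM hXc w hy with h4 | h4 | h4
        · exact Or.inl h4
        · exact Or.inr h4
        · have e : y = q := hcon y hy h4
          rw [e] at hy ⊢
          right
          by_contra hqX
          exact hq ⟨hy, hqX⟩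
      obtain ⟨v, hv1, hv2, hv3⟩ := hc _ _ (comp_isOpen hM hXc w) isClosed_closure.isOpen_compl
        (by
          intro x hx
          by_cases hxW : x ∈ closure (connectedComponentIn (X' ∪ σ)ᶜ w)
          · rcases hsub hxW with h5 | h5
            · exact Or.inl h5
            · exact absurd h5 hx
          · exact Or.inr hxW)
        ⟨w, fun h5 => hw (Or.inl h5), hwW⟩ ⟨p, hpX, fun h5 => hpq (hcon p h5 hpσ)⟩
      exact hv3 (subset_closure hv2)
  -- (c)
  have hp : ∀ w, w ∉ X' ∪ σ → p ∈ closure (connectedComponentIn (X' ∪ σ)ᶜ w) := by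
    intro w hw
    obtain ⟨y, hy, hyσ, hyq⟩ := hb w hw
    exact ha w y hy hyσ hyq
  obtain ⟨U, hU, hpU, hUX⟩ := free_end_arc hM hX hσ h
  apply isPreconnected_of_forall_pair
  intro w1 hw1 w2 hw2
  obtain ⟨z1, hz1U, hz1⟩ := mem_closure_iff.1 (hp w1 hw1) U hU hpU
  obtain ⟨z2, hz2U, hz2⟩ := mem_closure_iff.1 (hp w2 hw2) U hU hpU
  have h12 := hUX z1 ⟨hz1U, connectedComponentIn_subset _ _ hz1⟩ z2
    ⟨hz2U, connectedComponentIn_subset _ _ hz2⟩
  refine ⟨connectedComponentIn (X' ∪ σ)ᶜ w1, connectedComponentIn_subset _ _,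
    mem_connectedComponentIn hw1, ?_, isPreconnected_connectedComponentIn⟩
  rw [connectedComponentIn_eq hz1, connectedComponentIn_eq h12, ← connectedComponentIn_eq hz2]
  exact mem_connectedComponentIn hw2

end Pool.Agent.H94.PQ
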