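import Pool.Agent.H94.PQ.Clos
import Pool.Agent.H94.PQ.Pend
import Pool.Agent.H94.PQ.Comb

/-!
# PQV-8: every component has at least three adjacent edges, and exactly three only for a triangle

`pend_step`: `pendant` with `X' = sub Γ S`, `σ = Γ.σ i` as an arc from `pt k` to the other end (`(Γ.arc i)` or its `symm`): `sub Γ S ∩ Γ.σ i ⊆ {other end}` by `sub_inter` (a common point is `pt k'`,
`k'` an end of `i` and of some `j ∈ S`, so `k' ≠ k`); `sub_insert`.
`adj_univ`: `closure W ⊆ W ∪ A`, `A = sub Γ (Γ.adj W)` (`comp_clos_sub`, `comp_clos`); `W ∩ A = ∅`; so `Aᶜ` is covered by the disjoint open sets `W`, `(closure W)ᶜ`, and `W ≠ ∅`; `Aᶜ` is preconnected, so `Aᶜ ⊆ W`.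
So `Γ.set ⊆ A`.  For an edge `i ∉ Γ.adj W` a point of `Γ.op i` (`op_nonempty`) is in some `Γ.σ j`, `j ∈ Γ.adj W`, `j ≠ i`: contradiction to `op_disj`.
`comp_three`: if `Γ.adj W` has at most two elements then `(sub Γ (Γ.adj W))ᶜ` is preconnected: the empty set (`sub_empty`; `M` is connected), one edge (`pend_step` with `S = ∅`), two edges `i ≠ j`
(by `Γ.simple` one of the ends of `i` is not an end of `j`); so `Γ.adj W = univ`, contradiction to `Γ.four` (`Set.ncard_univ`).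
`comp_tri`: `Γ.adj W = {i, j, k}` (`Set.ncard_eq_three`); `comb` with the sets of ends; in the first three cases `pend_step` after the case of two edges shows that the complement is preconnected, contradiction as before.
-/

namespace Pool.Agent.H94.PQ

open Set Filter Topology Metric Pool.Agent.H61.PO

variable {M : Type*} [MetricSpace M]

theorem pend_step (hM : Surf M) (Γ : Gr M) {S : Set Γ.ι} {i : Γ.ι} {k : Γ.κ}
    (hc : IsPreconnected (sub Γ S)ᶜ) (hi : i ∉ S) (hk : k = Γ.s i ∨ k = Γ.t i)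
    (h : ∀ j ∈ S, k ≠ Γ.s j ∧ k ≠ Γ.t j) : IsPreconnected (sub Γ (insert i S))ᶜ := by
  rw [sub_insert]
  rcases hk with rfl | rfl
  · refine pendant hM (sub_closed Γ S) hc (Γ.arc i) ?_
    intro x hx
    obtain ⟨k', rfl, hk', j, hj, hkj⟩ := sub_inter Γ hi hx
    rcases hk' with rfl | rfl
    · exfalso
      rcases hkj with e | e
      · exact (h j hj).1 e
      · exact (h j hj).2 e
    · rfl
  · refine pendant hM (sub_closed Γ S) hc (Γ.arc i).symm ?_
    intro x hx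
    obtain ⟨k', rfl, hk', j, hj, hkj⟩ := sub_inter Γ hi hx
    rcases hk' with rfl | rfl
    · rfl
    · exfalso
      rcases hkj with e | e
      · exact (h j hj).1 e
      · exact (h j hj).2 e

theorem adj_univ (hM : Surf M) (Γ : Gr M) {W : Set M} (hW : W ∈ Γ.comps)
    (hc : IsPreconnected (sub Γ (Γ.adj W))ᶜ) : Γ.adj W = univ := by
  have hWs : ∀ x ∈ W, x ∉ Γ.set := fun x hx hx2 => disjoint_left.1 (comp_disj_set Γ hW) hx hx2
  have hWA : ∀ x ∈ W, x ∉ sub Γ (Γ.adj W) := fun x hx hx2 => hWs x hx (sub_subset Γ _ hx2)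
  have hcl : ∀ x ∈ closure W, x ∉ sub Γ (Γ.adj W) → x ∈ W := by
    intro x hx hxA
    rcases comp_clos_sub hM Γ hW hx with h | h
    · exact h
    · exfalso
      apply hxA
      have h2 : x ∈ closure W ∩ Γ.set := ⟨hx, h⟩
      rw [comp_clos hM Γ hW] at h2
      exact h2
  obtain ⟨w, hw⟩ := comp_nonempty Γ hW
  have hall : ∀ x, x ∉ sub Γ (Γ.adj W) → x ∈ W := by
    intro x hx
    by_contra hxW
    have hxc : x ∉ closure W := fun h => hxW (hcl x h hx)
    obtain ⟨v, _, hv2, hv3⟩ := hc W (closure W)ᶜ (comp_open hM Γ hW) isClosed_closure.isOpen_compl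
      (by
        intro y hy
        by_cases hyc : y ∈ closure W
        · exact Or.inl (hcl y hyc hy)
        · exact Or.inr hyc)
      ⟨w, hWA w hw, hw⟩ ⟨x, hx, hxc⟩
    exact hv3 (subset_closure hv2)
  apply eq_univ_of_forall
  intro i
  by_contra hi
  obtain ⟨y, hy⟩ := op_nonempty Γ i
  have hyA : y ∈ sub Γ (Γ.adj W) := by
    by_contra hyA
    exact hWs y (hall y hyA) (mem_iUnion.2 ⟨i, hy.1⟩)
  simp only [sub, mem_iUnion] at hyA
  obtain ⟨j, hj, hyj⟩ := hyA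
  have hij : i ≠ j := by
    rintro rfl
    exact hi hj
  have h1 : y ∈ Γ.op i ∩ Γ.σ j := ⟨hy, hyj⟩
  rw [op_disj Γ hij] at h1
  exact h1

private theorem one_pre [PreconnectedSpace M] (hM : Surf M) (Γ : Gr M) (i : Γ.ι) :
    IsPreconnected (sub Γ {i})ᶜ := by
  have h0 : IsPreconnected (sub Γ (∅ : Set Γ.ι))ᶜ := by
    rw [sub_empty, compl_empty]
    exact isPreconnected_univ
  have h1 := pend_step hM Γ (i := i) (k := Γ.s i) h0 (by simp) (Or.inl rfl)
    (fun j hj => absurd hj (by simp))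
  rwa [insert_empty_eq] at h1

private theorem two_pre [PreconnectedSpace M] (hM : Surf M) (Γ : Gr M) {i j : Γ.ι} (h : i ≠ j) :
    IsPreconnected (sub Γ {i, j})ᶜ := by
  have h1 := one_pre hM Γ j
  by_cases hs : Γ.s i ≠ Γ.s j ∧ Γ.s i ≠ Γ.t j
  · exact pend_step hM Γ (k := Γ.s i) h1 h (Or.inl rfl) (by rintro j' rfl; exact hs)
  by_cases ht : Γ.t i ≠ Γ.s j ∧ Γ.t i ≠ Γ.t j
  · exact pend_step hM Γ (k := Γ.t i) h1 h (Or.inr rfl) (by rintro j' rfl; exact ht)
  exfalso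
  apply h
  apply Γ.simple
  have h3 := Γ.st i
  have h4 := Γ.st j
  rw [Set.pair_eq_pair_iff]
  by_cases a1 : Γ.s i = Γ.s j
  · left
    refine ⟨a1, ?_⟩
    by_contra hne
    exact ht ⟨fun e => h3 (a1.trans e.symm), hne⟩
  · right
    have a2 : Γ.s i = Γ.t j := by
      by_contra hne
      exact hs ⟨a1, hne⟩
    refine ⟨a2, ?_⟩
    by_contra hne
    exact ht ⟨hne, fun e => h3 (a2.trans e.symm)⟩

private theorem three_pre [PreconnectedSpace M] (hM : Surf M) (Γ : Gr M) {i j k : Γ.ι}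
    (hij : i ≠ j) (hik : i ≠ k) (hjk : j ≠ k)
    (h : ∃ x ∈ ({Γ.s i, Γ.t i} : Set Γ.κ), x ∉ ({Γ.s j, Γ.t j} : Set Γ.κ) ∧
      x ∉ ({Γ.s k, Γ.t k} : Set Γ.κ)) :
    IsPreconnected (sub Γ {i, j, k})ᶜ := by
  obtain ⟨x, hx, hxj, hxk⟩ := h
  refine pend_step hM Γ (k := x) (two_pre hM Γ hjk) ?_ hx ?_
  · rintro (e | e)
    · exact hij e
    · exact hik e
  · rintro j' (rfl | rfl)
    · exact ⟨fun e => hxj (Or.inl e), fun e => hxj (Or.inr e)⟩
    · exact ⟨fun e => hxk (Or.inl e), fun e => hxk (Or.inr e)⟩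

private theorem not_pre (hM : Surf M) (Γ : Gr M) {W : Set M} (hW : W ∈ Γ.comps)
    (h3 : (Γ.adj W).ncard ≤ 3) : ¬ IsPreconnected (sub Γ (Γ.adj W))ᶜ := by
  intro hc
  have h4 := adj_univ hM Γ hW hc
  rw [h4, Set.ncard_univ] at h3
  have h5 := Γ.four
  omega

theorem comp_three [PreconnectedSpace M] (hM : Surf M) (Γ : Gr M) {W : Set M}
    (hW : W ∈ Γ.comps) : 3 ≤ (Γ.adj W).ncard := by
  have := Γ.fι
  by_contra hlt
  refine not_pre hM Γ hW (by omega) ?_
  have h012 : (Γ.adj W).ncard = 0 ∨ (Γ.adj W).ncard = 1 ∨ (Γ.adj W).ncard = 2 := by omega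
  rcases h012 with h | h | h
  · rw [Set.ncard_eq_zero (Set.toFinite _)] at h
    rw [h, sub_empty, compl_empty]
    exact isPreconnected_univ
  · obtain ⟨i, hi⟩ := Set.ncard_eq_one.1 h
    rw [hi]
    exact one_pre hM Γ i
  · obtain ⟨i, j, hij, hi⟩ := Set.ncard_eq_two.1 h
    rw [hi]
    exact two_pre hM Γ hij

/-- a component which is adjacent to exactly three edges: they form a triangle -/
theorem comp_tri [PreconnectedSpace M] (hM : Surf M) (Γ : Gr M) {W : Set M} (hW : W ∈ Γ.comps)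
    (h3 : (Γ.adj W).ncard = 3) :
    ∃ (a b c : Γ.κ) (i j k : Γ.ι), a ≠ b ∧ a ≠ c ∧ b ≠ c ∧ Γ.adj W = {i, j, k} ∧
      ({Γ.s i, Γ.t i} : Set Γ.κ) = {a, b} ∧ ({Γ.s j, Γ.t j} : Set Γ.κ) = {b, c} ∧
      ({Γ.s k, Γ.t k} : Set Γ.κ) = {a, c} := by
  obtain ⟨i, j, k, hij, hik, hjk, hE⟩ := Set.ncard_eq_three.1 h3
  have hn := not_pre hM Γ hW h3.le
  rw [hE] at hn
  rcases comb (E1 := {Γ.s i, Γ.t i}) (E2 := {Γ.s j, Γ.t j}) (E3 := {Γ.s k, Γ.t k})
    ⟨_, _, Γ.st i, rfl⟩ ⟨_, _, Γ.st j, rfl⟩ ⟨_, _, Γ.st k, rfl⟩ (fun e => hij (Γ.simple _ _ e))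
    (fun e => hik (Γ.simple _ _ e)) (fun e => hjk (Γ.simple _ _ e)) with h | h | h | h
  · exact absurd (three_pre hM Γ hij hik hjk h) hn
  · have h1 := three_pre hM Γ hij.symm hjk hik h
    rw [insert_comm] at h1
    exact absurd h1 hn
  · have h1 := three_pre hM Γ hik.symm hjk.symm hij h
    have e : ({k, i, j} : Set Γ.ι) = {i, j, k} := by
      ext x
      simp only [mem_insert_iff, mem_singleton_iff]
      tauto
    rw [e] at h1
    exact absurd h1 hn
  · obtain ⟨a, b, c, hab, hac, hbc, e1, e2, e3⟩ := h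
    exact ⟨a, b, c, i, j, k, hab, hac, hbc, hE, e1, e2, e3⟩

end Pool.Agent.H94.PQ
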